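import Pool.Agent.Work.MP_05d08f_al.RS.Gl

set_option autoImplicit false

/-!
# Let (size M): a letter that can stand at the end

PROOF. `exists_last`. First `wt_append`: `wt g D (l ++ l') a = wt g D l a * wt g D l' (a + sh g l)` (induction
on `l`). For every `σ` there is exactly one `j` with `wr σ j = []`, namely `j = σ (last)`, (`0 < m`:
`wr σ j` has length `m - 1 - σ.symm j`), and then `ofFn σ = wl σ j ++ [j]` (`ofFn_split`), so
`wt g D (ofFn σ) a = wt g D (wl σ j) a * D j (a + sh g (wl σ j))` with `sh g (wl σ j) = ∑ l, g l - g j`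
(`sh_word`). Hence `co c g a D = ∑ j, gl c j g D a * D j (a + (∑ l, g l - g j))` (interchange the sums over
`σ` and `j`); if it is not zero, some `gl c j g D a` is not zero.

`exists_letter`. `Lam c i g (g i) D0 D0` is invertible, so some entry of it is nonzero, so for some `a` and
`ζ` (a unit vector) `(Lam c i g (g i) D0 D0 *ᵥ ζ) a = co c g a (Function.update D0 i ζ) ≠ 0` (`Lam_mulVec`).
Let `j` be given by `exists_last` with `D = Function.update D0 i ζ`. For `a' = a + k` (`k = a' - a`) use
`fun l x => D l (x - k)` and `gl_shift`.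
(`0 < m` because there is a letter `i : Fin m`.)
-/

namespace MLI

open Matrix Equiv

variable {K : Type*} [Field K] {m : ℕ}

private theorem wt_append_let (g : Fin m → ZMod 2) (D : Fin m → ZMod 2 → K)
    (l l' : List (Fin m)) (a : ZMod 2) :
    wt g D (l ++ l') a = wt g D l a * wt g D l' (a + sh g l) := by
  induction l generalizing a with
  | nil => simp [wt, sh]
  | cons j l ih =>
    have h1 : sh g (j :: l) = g j + sh g l := by simp [sh]
    rw [List.cons_append, h1]
    simp only [wt]
    rw [ih, mul_assoc, add_assoc]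

theorem exists_last (hm : 0 < m) (c : Perm (Fin m) → K) (g : Fin m → ZMod 2)
    (D : Fin m → ZMod 2 → K) (a : ZMod 2) (h : co c g a D ≠ 0) : ∃ j, gl c j g D a ≠ 0 := by
  by_contra hcon
  push Not at hcon
  apply h
  have key : ∀ σ : Perm (Fin m), c σ * wt g D (List.ofFn fun k => σ k) a =
      ∑ j : Fin m, (if wr σ j = [] then c σ * wt g D (wl σ j) a else 0) *
        D j (a + (∑ l, g l - g j)) := by
    intro σ
    have hwr : ∀ j : Fin m, wr σ j = [] ↔ m ≤ (σ.symm j).val + 1 := by
      intro j
      unfold wr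
      rw [List.drop_eq_nil_iff, List.length_ofFn]
    rw [Finset.sum_eq_single (σ ⟨m - 1, by omega⟩)]
    · obtain ⟨j, hj⟩ : ∃ j, j = σ ⟨m - 1, by omega⟩ := ⟨_, rfl⟩
      rw [← hj]
      have h1 : wr σ j = [] := by
        rw [hwr, hj, Equiv.symm_apply_apply]
        dsimp only
        omega
      rw [if_pos h1]
      have h2 := sh_word g σ j
      rw [h1] at h2
      have h3 : sh g (wl σ j) = ∑ l, g l - g j := by
        rw [← h2]
        simp [sh]
      rw [ofFn_split σ j, h1, wt_append_let, h3]
      simp only [wt]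
      ring
    · intro j _ hj
      have h1 : ¬ (wr σ j = []) := by
        rw [hwr]
        intro h2
        apply hj
        have h3 : σ.symm j = ⟨m - 1, by omega⟩ := by
          apply Fin.ext
          have := (σ.symm j).isLt
          dsimp only
          omega
        rw [← h3, Equiv.apply_symm_apply]
      rw [if_neg h1, zero_mul]
    · intro h1
      exact absurd (Finset.mem_univ _) h1
  unfold co
  rw [Finset.sum_congr rfl fun σ _ => key σ, Finset.sum_comm]
  refine Finset.sum_eq_zero fun j _ => ?_
  rw [← Finset.sum_mul]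
  have h1 := hcon j
  unfold gl at h1
  rw [h1, zero_mul]

theorem exists_letter (c : Perm (Fin m) → K) (i : Fin m) (g : Fin m → ZMod 2)
    (D0 : Fin m → ZMod 2 → K) (hdet : (Lam c i g (g i) D0 D0).det ≠ 0) :
    ∃ j : Fin m, ∀ a : ZMod 2, ∃ D : Fin m → ZMod 2 → K, gl c j g D a ≠ 0 := by
  have hm : 0 < m := lt_of_le_of_lt (Nat.zero_le _) i.isLt
  obtain ⟨a, b, hab⟩ : ∃ a b, Lam c i g (g i) D0 D0 a b ≠ 0 := by
    by_contra hcon
    push Not at hcon
    apply hdet
    have h0 : Lam c i g (g i) D0 D0 = 0 := by
      ext a b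
      exact hcon a b
    rw [h0]
    exact Matrix.det_zero
  have h1 := Lam_mulVec c i g D0 (Pi.single b 1) a
  rw [Matrix.mulVec_single_one, Matrix.col_apply] at h1
  have h2 : co c g a (Function.update D0 i (Pi.single b 1)) ≠ 0 := by
    rw [← h1]
    exact hab
  obtain ⟨j, hj⟩ := exists_last hm c g _ a h2
  refine ⟨j, fun a' => ⟨fun l x => Function.update D0 i (Pi.single b 1) l (x + (a - a')), ?_⟩⟩
  rw [gl_shift, add_sub_cancel]
  exact hj

end MLI
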