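import Pool.Agent.Work.MP_05d08f_al.Basic

set_option autoImplicit false

/-!
# Lie (size M-L): multilinear Lie polynomials are reversal-symmetric or reversal-antisymmetric

Write `lieWord a l z = (l.map a).foldr (fun x y => x * y - y * x) (a z) = [a l₁, [a l₂, [..., [a l_r, a z]]]]` (right-normed commutator).

PROOF. For a list `l` of letters and a letter `z` define (privately) `P l z : List (Fin N) →₀ K` by
`P [] z = single [z] 1`, `P (x :: l) z = (P l z).mapDomain (x :: ·) - (P l z).mapDomain (· ++ [x])`. By induction
on `l`:
(1) every word `w` in the support of `P l z` is a permutation (`List.Perm`) of `l ++ [z]`;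
(2) `P l z w.reverse = (-1)^l.length * P l z w` for every `w`; better: the linear form
    `(P l z).mapDomain List.reverse = (-1)^l.length • P l z` (reversal exchanges `x :: w` and `w.reverse ++ [x]`);
(3) `(P l z).sum (fun w t => t • (w.map a).prod) = lieWord a l z` for all matrices `a`.
Put `c τ = ∑ σ, lam σ * P (l_σ) (z_σ) (List.ofFn τ)`, where `l_σ = List.ofFn (fun k : Fin m => σ k.castSucc)`,
`z_σ = σ (Fin.last m)`, `l_σ ++ [z_σ] = List.ofFn σ`. `List.ofFn (τ * revPerm) = (List.ofFn τ).reverse` and (2) give
the symmetry. By (1) every word in the support of `P l_σ z_σ` is a permutation of `List.ofFn σ`, so it has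
length `m + 1` and no repetitions, so it is `List.ofFn τ` for exactly one permutation `τ` (a map
`Fin (m+1) → Fin (m+1)` that is injective is a permutation, `Equiv.ofBijective`, `Finite.injective_iff_bijective`);
so `(P l_σ z_σ).sum F = ∑ τ, P l_σ z_σ (ofFn τ) * F (ofFn τ)` (`Finsupp.sum`, the map `τ ↦ List.ofFn τ` is injective:
`Finset.sum_map` / `Finset.sum_subset`). With (3) this gives the evaluation formula
(`ev c a = ∑ τ, c τ • (List.ofFn fun k => a (τ k)).prod`).
-/

namespace MLI

open Matrix Equiv

variable {K : Type*} [Field K]

/-- The right-normed commutator as a combination of words. -/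
private noncomputable def LP (K : Type*) [Field K] {N : ℕ} :
    List (Fin N) → Fin N → (List (Fin N) →₀ K)
  | [], z => Finsupp.single [z] 1
  | x :: l, z => (LP K l z).mapDomain (fun w => x :: w) - (LP K l z).mapDomain (fun w => w ++ [x])

private theorem LP_perm {N : ℕ} (l : List (Fin N)) (z : Fin N) :
    ∀ w : List (Fin N), w ∈ (LP K l z).support → List.Perm w (l ++ [z]) := by
  induction l with
  | nil =>
    intro w hw
    rw [LP] at hw
    have h1 := Finsupp.support_single_subset hw
    rw [Finset.mem_singleton] at h1
    rw [h1]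
    exact List.Perm.refl _
  | cons x l ih =>
    intro w hw
    rw [LP] at hw
    have h1 := Finsupp.support_sub hw
    rw [Finset.mem_union] at h1
    rcases h1 with h1 | h1
    · have h2 := Finsupp.mapDomain_support h1
      rw [Finset.mem_image] at h2
      obtain ⟨v, hv, rfl⟩ := h2
      rw [List.cons_append]
      exact (ih v hv).cons x
    · have h2 := Finsupp.mapDomain_support h1
      rw [Finset.mem_image] at h2
      obtain ⟨v, hv, rfl⟩ := h2
      rw [List.cons_append]
      exact (List.perm_append_singleton x v).trans ((ih v hv).cons x)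

private theorem LP_rev {N : ℕ} (l : List (Fin N)) (z : Fin N) :
    (LP K l z).mapDomain List.reverse = (-1 : K) ^ l.length • LP K l z := by
  induction l with
  | nil =>
    rw [LP, Finsupp.mapDomain_single]
    simp
  | cons x l ih =>
    have e1 : Finsupp.mapDomain List.reverse ((LP K l z).mapDomain (fun w => x :: w)) =
        (-1 : K) ^ l.length • (LP K l z).mapDomain (fun w => w ++ [x]) := by
      rw [← Finsupp.mapDomain_smul, ← ih, ← Finsupp.mapDomain_comp, ← Finsupp.mapDomain_comp]
      congr 1
      funext w
      simp [Function.comp]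
    have e2 : Finsupp.mapDomain List.reverse ((LP K l z).mapDomain (fun w => w ++ [x])) =
        (-1 : K) ^ l.length • (LP K l z).mapDomain (fun w => x :: w) := by
      rw [← Finsupp.mapDomain_smul, ← ih, ← Finsupp.mapDomain_comp, ← Finsupp.mapDomain_comp]
      congr 1
      funext w
      simp [Function.comp]
    have e3 : LP K (x :: l) z =
        (LP K l z).mapDomain (fun w => x :: w) - (LP K l z).mapDomain (fun w => w ++ [x]) := rfl
    have e4 : Finsupp.mapDomain List.reverse ((LP K l z).mapDomain (fun w => x :: w) -
        (LP K l z).mapDomain (fun w => w ++ [x])) =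
        Finsupp.mapDomain List.reverse ((LP K l z).mapDomain (fun w => x :: w)) -
        Finsupp.mapDomain List.reverse ((LP K l z).mapDomain (fun w => w ++ [x])) := by
      exact map_sub (Finsupp.mapDomain.addMonoidHom List.reverse) _ _
    rw [e3, e4, e1, e2, List.length_cons, pow_succ, mul_neg_one, neg_smul, ← smul_neg, neg_sub,
      smul_sub]

private theorem LP_rev_apply {N : ℕ} (l : List (Fin N)) (z : Fin N) (w : List (Fin N)) :
    LP K l z w.reverse = (-1 : K) ^ l.length * LP K l z w := by
  have h := congrArg (fun p => p w) (LP_rev (K := K) l z)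
  simp only [Finsupp.smul_apply, smul_eq_mul] at h
  rw [← h]
  have h2 := Finsupp.mapDomain_apply (M := K) (List.reverse_injective (α := Fin N)) (LP K l z)
    w.reverse
  rw [List.reverse_reverse] at h2
  exact h2.symm

private theorem LP_eval {N n : ℕ} (a : Fin N → Matrix (Fin n) (Fin n) K) (l : List (Fin N))
    (z : Fin N) :
    Finsupp.linearCombination K (fun w : List (Fin N) => (w.map a).prod) (LP K l z) =
      (l.map a).foldr (fun x y => x * y - y * x) (a z) := by
  induction l with
  | nil =>
    rw [LP, Finsupp.linearCombination_single]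
    simp
  | cons x l ih =>
    have e1 : ∀ p : List (Fin N) →₀ K,
        Finsupp.linearCombination K (fun w : List (Fin N) => (w.map a).prod)
          (p.mapDomain (fun w => x :: w)) =
        a x * Finsupp.linearCombination K (fun w : List (Fin N) => (w.map a).prod) p := by
      intro p
      rw [Finsupp.linearCombination_mapDomain, Finsupp.linearCombination_apply,
        Finsupp.linearCombination_apply, Finsupp.sum, Finsupp.sum, Finset.mul_sum]
      refine Finset.sum_congr rfl fun w _ => ?_
      rw [Function.comp_apply, List.map_cons, List.prod_cons, Matrix.mul_smul]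
    have e2 : ∀ p : List (Fin N) →₀ K,
        Finsupp.linearCombination K (fun w : List (Fin N) => (w.map a).prod)
          (p.mapDomain (fun w => w ++ [x])) =
        Finsupp.linearCombination K (fun w : List (Fin N) => (w.map a).prod) p * a x := by
      intro p
      rw [Finsupp.linearCombination_mapDomain, Finsupp.linearCombination_apply,
        Finsupp.linearCombination_apply, Finsupp.sum, Finsupp.sum, Finset.sum_mul]
      refine Finset.sum_congr rfl fun w _ => ?_
      rw [Function.comp_apply, List.map_append, List.prod_append, List.map_singleton,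
        List.prod_singleton, Matrix.smul_mul]
    rw [LP, map_sub, e1, e2, ih, List.map_cons, List.foldr_cons]

private theorem exists_perm_of_perm {N : ℕ} (σ : Perm (Fin N)) (w : List (Fin N))
    (h : List.Perm w (List.ofFn fun k => σ k)) : ∃ τ : Perm (Fin N), (List.ofFn fun k => τ k) = w := by
  have hlen : w.length = N := by rw [h.length_eq, List.length_ofFn]
  have hnd : w.Nodup := h.nodup_iff.2 (nodup_word σ)
  have hinj : Function.Injective (fun k : Fin N => w.get (k.cast hlen.symm)) := by
    intro i j hij
    have h1 := (List.nodup_iff_injective_get.1 hnd) hij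
    exact Fin.cast_injective _ h1
  refine ⟨Equiv.ofBijective _ (Finite.injective_iff_bijective.1 hinj), ?_⟩
  refine List.ext_getElem (by rw [List.length_ofFn, hlen]) fun i h1 h2 => ?_
  rw [List.getElem_ofFn]
  simp [Equiv.ofBijective_apply]

private theorem sum_words {N n : ℕ} (p : List (Fin N) →₀ K)
    (hp : ∀ w ∈ p.support, ∃ τ : Perm (Fin N), (List.ofFn fun k => τ k) = w)
    (F : List (Fin N) → Matrix (Fin n) (Fin n) K) :
    Finsupp.linearCombination K F p =
      ∑ τ : Perm (Fin N), p (List.ofFn fun k => τ k) • F (List.ofFn fun k => τ k) := by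
  classical
  have hinj : Function.Injective (fun τ : Perm (Fin N) => List.ofFn fun k => τ k) := by
    intro τ τ' h
    have h1 := List.ofFn_injective h
    exact Equiv.ext fun k => congrFun h1 k
  have hs : p.support ⊆ (Finset.univ : Finset (Perm (Fin N))).image
      (fun τ : Perm (Fin N) => List.ofFn fun k => τ k) := by
    intro w hw
    obtain ⟨τ, hτ⟩ := hp w hw
    exact Finset.mem_image.2 ⟨τ, Finset.mem_univ _, hτ⟩
  rw [Finsupp.linearCombination_apply, Finsupp.sum_of_support_subset p hs _ (by simp),
    Finset.sum_image (fun x _ y _ h => hinj h)]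

private theorem ofFn_revPerm {N : ℕ} (τ : Perm (Fin N)) :
    (List.ofFn fun k => (τ * Fin.revPerm : Perm (Fin N)) k) = (List.ofFn fun k => τ k).reverse := by
  refine List.ext_getElem (by simp) fun i h1 h2 => ?_
  rw [List.getElem_ofFn, List.getElem_reverse, List.getElem_ofFn, Equiv.Perm.mul_apply,
    Fin.revPerm_apply]
  congr 1
  apply Fin.ext
  simp only [Fin.val_rev, List.length_ofFn]
  omega

theorem lie_coeff {m : ℕ} (lam : Perm (Fin (m + 1)) → K) :
    ∃ c : Perm (Fin (m + 1)) → K,
      (∀ τ, c (τ * Fin.revPerm) = (-1) ^ m * c τ) ∧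
      ∀ (n : ℕ) (a : Fin (m + 1) → Matrix (Fin n) (Fin n) K),
        ev c a = ∑ σ : Perm (Fin (m + 1)), lam σ •
          (List.ofFn fun k : Fin m => a (σ k.castSucc)).foldr (fun x y => x * y - y * x)
            (a (σ (Fin.last m))) := by
  have hw : ∀ σ : Perm (Fin (m + 1)),
      (List.ofFn fun k : Fin m => σ k.castSucc) ++ [σ (Fin.last m)] = List.ofFn fun k => σ k := by
    intro σ
    rw [List.ofFn_succ']
    simp [List.concat_eq_append]
  refine ⟨fun τ => ∑ σ : Perm (Fin (m + 1)), lam σ *
    LP K (List.ofFn fun k : Fin m => σ k.castSucc) (σ (Fin.last m)) (List.ofFn fun k => τ k),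
    ?_, ?_⟩
  · intro τ
    show (∑ σ : Perm (Fin (m + 1)), lam σ *
      LP K (List.ofFn fun k : Fin m => σ k.castSucc) (σ (Fin.last m))
        (List.ofFn fun k => (τ * Fin.revPerm : Perm (Fin (m + 1))) k)) = (-1) ^ m * ∑ σ : Perm (Fin (m + 1)), lam σ *
      LP K (List.ofFn fun k : Fin m => σ k.castSucc) (σ (Fin.last m)) (List.ofFn fun k => τ k)
    rw [Finset.mul_sum]
    refine Finset.sum_congr rfl fun σ _ => ?_
    rw [ofFn_revPerm, LP_rev_apply, List.length_ofFn]
    ring
  · intro n a
    unfold ev
    have h1 : ∀ σ : Perm (Fin (m + 1)),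
        (List.ofFn fun k : Fin m => a (σ k.castSucc)).foldr (fun x y => x * y - y * x)
          (a (σ (Fin.last m))) =
        ∑ τ : Perm (Fin (m + 1)),
          LP K (List.ofFn fun k : Fin m => σ k.castSucc) (σ (Fin.last m))
            (List.ofFn fun k => τ k) • (List.ofFn fun k => a (τ k)).prod := by
      intro σ
      have h2 := LP_eval (K := K) a (List.ofFn fun k : Fin m => σ k.castSucc) (σ (Fin.last m))
      have e3 : (List.ofFn fun k : Fin m => σ k.castSucc).map a =
          List.ofFn fun k : Fin m => a (σ k.castSucc) := by
        rw [List.map_ofFn]; rfl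
      rw [e3] at h2
      rw [← h2, sum_words]
      · refine Finset.sum_congr rfl fun τ _ => ?_
        have e4 : (List.ofFn fun k => τ k).map a = List.ofFn fun k => a (τ k) := by
          rw [List.map_ofFn]; rfl
        rw [e4]
      · intro w hw'
        have h3 := LP_perm (K := K) _ _ w hw'
        rw [hw σ] at h3
        exact exists_perm_of_perm σ w h3
    simp only [h1, Finset.sum_smul, Finset.smul_sum]
    rw [Finset.sum_comm]
    refine Finset.sum_congr rfl fun σ _ => Finset.sum_congr rfl fun τ _ => ?_
    rw [mul_smul]

end MLI
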