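import Pool.Agent.Work.MP_05d08f_al.Final

set_option autoImplicit false

/-!
# MP_05d08f_al, reversal-symmetric polynomials: definitions

* `gl c j g D a`: the sum over the words ending in the letter `j`, with `j` removed, of the weights of the
  graded matrices `Gm (g l) (D l)` (entry in row `a`);
* `NF A`: the matrix `A`, indexed by `k` pairs and one more index, has zero diagonal, and in each of the
  `k` pairs the two off-diagonal entries are both zero or both nonzero.
-/

namespace MLI

open Matrix Equiv

variable {K : Type*} [Field K] {m : ℕ}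

/-- The words ending in `j`, with `j` removed, evaluated at the graded matrices `Gm (g l) (D l)`. -/
def gl (c : Perm (Fin m) → K) (j : Fin m) (g : Fin m → ZMod 2) (D : Fin m → ZMod 2 → K)
    (a : ZMod 2) : K :=
  ∑ σ : Perm (Fin m), if wr σ j = [] then c σ * wt g D (wl σ j) a else 0

/-- Zero diagonal, and in each pair of indices both off-diagonal entries are zero or both are nonzero. -/
def NF {k : ℕ} (A : Matrix ((Fin k × ZMod 2) ⊕ Unit) ((Fin k × ZMod 2) ⊕ Unit) K) : Prop :=
  (∀ x, A x x = 0) ∧
    ∀ p : Fin k, A (Sum.inl (p, 0)) (Sum.inl (p, 1)) = 0 ↔ A (Sum.inl (p, 1)) (Sum.inl (p, 0)) = 0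

end MLI
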