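import Mathlib

set_option autoImplicit false

/-!
# Tri (size M): hollow `3 × 3` matrices

PROOF. Let `A` be `3 × 3` with zero diagonal, entries `a_xy`. Call a pair `x ≠ y` GOOD if `a_xy = 0 ↔ a_yx = 0`.
(1) If some pair is good, permute the indices so that it becomes `(0, 1)` (`P` a permutation matrix; or conjugate
    with `Matrix.submatrix` by an `Equiv.Perm (Fin 3)`; the three cases: identity, swap `0 2`, swap `1 2`).
(2) Otherwise in each of the three pairs exactly one of `a_xy`, `a_yx` is nonzero: after a permutation either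
    (T) `A = [[0,a,b],[0,0,d],[0,0,0]]` with `a, b, d ≠ 0`, or
    (C) `A = [[0,a,0],[0,0,d],[e,0,0]]` with `a, d, e ≠ 0`.
    (T): with `P = 1 + s E_12`, (rows and columns 0, 1, 2; `E_12` has its 1 in row 1, column 2), `s = -b/a`,
    `P⁻¹ A P = [[0,a,0],[0,0,d],[0,0,0]]`; the pair `(0, 2)` is good; go to (1).
    (C): let the columns of `P` be `u₁ = e·e₂`, `u₂ = e₀`, `w = (e d) e₁ - e₀` (`e₀, e₁, e₂` the unit vectors);
    `A u₁ = w + u₂`, `A u₂ = u₁`, `A w = (a d e) u₂ - u₁`, so `P⁻¹ A P = [[0,1,-1],[1,0,ade],[1,0,0]]` with respect to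
    `(u₁, u₂, w)`: hollow, and the pair `(0, 1)` is good (both entries are 1). `det P = ± e·e·d ≠ 0`; give the
    inverse explicitly, or use `Matrix.nonsing_inv`.
Suggestion: first the reduction lemma `if the statement holds for a matrix similar to A then for A`, then the
explicit matrices `!![..]`, `Fin` cases with `fin_cases` and `field_simp`/`ring`.
-/

namespace MLI

open Matrix

variable {K : Type*} [Field K]

private def TriGood (A : Matrix (Fin 3) (Fin 3) K) : Prop :=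
  ∃ P Q : Matrix (Fin 3) (Fin 3) K, P * Q = 1 ∧ Q * P = 1 ∧ (∀ x, (Q * A * P) x x = 0) ∧
    ((Q * A * P) 0 1 = 0 ↔ (Q * A * P) 1 0 = 0)

private theorem tri_sim {A P Q : Matrix (Fin 3) (Fin 3) K} (h1 : P * Q = 1) (h2 : Q * P = 1)
    (h : TriGood (Q * A * P)) : TriGood A := by
  obtain ⟨P', Q', h3, h4, h5, h6⟩ := h
  have e : (Q' * Q) * A * (P * P') = Q' * (Q * A * P) * P' := by
    simp only [Matrix.mul_assoc]
  refine ⟨P * P', Q' * Q, ?_, ?_, ?_, ?_⟩
  · rw [Matrix.mul_assoc, ← Matrix.mul_assoc P', h3, Matrix.one_mul, h1]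
  · rw [Matrix.mul_assoc, ← Matrix.mul_assoc Q, h2, Matrix.one_mul, h4]
  · rw [e]
    exact h5
  · rw [e]
    exact h6

private theorem tri_perm {A : Matrix (Fin 3) (Fin 3) K} (e : Equiv.Perm (Fin 3))
    (h : TriGood (A.submatrix e e)) : TriGood A := by
  have h1 : ((1 : Matrix (Fin 3) (Fin 3) K).submatrix e id) * A * (1 : Matrix (Fin 3) (Fin 3) K).submatrix id e
      = A.submatrix e e := by
    ext x y
    simp [Matrix.mul_apply, Matrix.submatrix_apply, Matrix.one_apply]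
  refine tri_sim (P := (1 : Matrix (Fin 3) (Fin 3) K).submatrix id e)
    (Q := (1 : Matrix (Fin 3) (Fin 3) K).submatrix e id) ?_ ?_ ?_
  · ext x y
    rw [Matrix.mul_apply, ← e.symm.sum_comp]
    simp [Matrix.submatrix_apply, Matrix.one_apply]
  · ext x y
    simp [Matrix.mul_apply, Matrix.submatrix_apply, Matrix.one_apply]
  · rw [h1]
    exact h

private theorem tri_one {A : Matrix (Fin 3) (Fin 3) K} (h : ∀ x, A x x = 0)
    (h1 : A 0 1 = 0 ↔ A 1 0 = 0) : TriGood A := by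
  refine ⟨1, 1, by simp, by simp, ?_, ?_⟩
  · simpa using h
  · simpa using h1

private theorem tri_pair {A : Matrix (Fin 3) (Fin 3) K} (h : ∀ x, A x x = 0)
    (e : Equiv.Perm (Fin 3)) (h1 : A (e 0) (e 1) = 0 ↔ A (e 1) (e 0) = 0) : TriGood A :=
  tri_perm e (tri_one (fun x => h (e x)) h1)

private theorem tri_T {A : Matrix (Fin 3) (Fin 3) K} (h : ∀ x, A x x = 0) (h10 : A 1 0 = 0)
    (h20 : A 2 0 = 0) (h21 : A 2 1 = 0) (h01 : A 0 1 ≠ 0) : TriGood A := by
  have hA : A = !![0, A 0 1, A 0 2; 0, 0, A 1 2; 0, 0, 0] := by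
    ext x y
    fin_cases x <;> fin_cases y <;> simp [h, h10, h20, h21]
  generalize A 0 1 = a at hA h01
  generalize A 0 2 = b at hA
  generalize A 1 2 = d at hA
  subst hA
  refine tri_sim (P := !![1, 0, 0; 0, 1, -(b / a); 0, 0, 1])
    (Q := !![1, 0, 0; 0, 1, b / a; 0, 0, 1]) ?_ ?_ ?_
  · ext x y
    fin_cases x <;> fin_cases y <;> simp [Matrix.mul_apply, Fin.sum_univ_three]
  · ext x y
    fin_cases x <;> fin_cases y <;> simp [Matrix.mul_apply, Fin.sum_univ_three]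
  · have h3 : (!![1, 0, 0; 0, 1, b / a; 0, 0, 1] : Matrix (Fin 3) (Fin 3) K) *
        !![0, a, b; 0, 0, d; 0, 0, 0] * !![1, 0, 0; 0, 1, -(b / a); 0, 0, 1] =
        !![0, a, 0; 0, 0, d; 0, 0, 0] := by
      ext x y
      fin_cases x <;> fin_cases y <;> simp [Matrix.mul_apply, Fin.sum_univ_three]
      field_simp
      ring
    rw [h3]
    refine tri_pair ?_ (Equiv.swap 1 2) ?_
    · intro x
      fin_cases x <;> simp
    · have e0 : Equiv.swap (1 : Fin 3) 2 0 = 0 := by decide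
      have e1 : Equiv.swap (1 : Fin 3) 2 1 = 2 := by decide
      rw [e0, e1]
      simp

private theorem tri_C {A : Matrix (Fin 3) (Fin 3) K} (h : ∀ x, A x x = 0) (h10 : A 1 0 = 0)
    (h02 : A 0 2 = 0) (h21 : A 2 1 = 0) (h12 : A 1 2 ≠ 0) (h20 : A 2 0 ≠ 0) : TriGood A := by
  have hA : A = !![0, A 0 1, 0; 0, 0, A 1 2; A 2 0, 0, 0] := by
    ext x y
    fin_cases x <;> fin_cases y <;> simp [h, h10, h02, h21]
  generalize A 0 1 = a at hA
  generalize A 1 2 = d at hA h12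
  generalize A 2 0 = e at hA h20
  subst hA
  refine tri_sim (P := !![0, 1, -1; 0, 0, e * d; e, 0, 0])
    (Q := !![0, 0, 1 / e; 1, 1 / (e * d), 0; 0, 1 / (e * d), 0]) ?_ ?_ ?_
  · ext x y
    fin_cases x <;> fin_cases y <;> simp [Matrix.mul_apply, Fin.sum_univ_three] <;> field_simp
  · ext x y
    fin_cases x <;> fin_cases y <;> simp [Matrix.mul_apply, Fin.sum_univ_three] <;> field_simp <;>
      ring
  · have h3 : (!![0, 0, 1 / e; 1, 1 / (e * d), 0; 0, 1 / (e * d), 0] : Matrix (Fin 3) (Fin 3) K) *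
        !![0, a, 0; 0, 0, d; e, 0, 0] * !![0, 1, -1; 0, 0, e * d; e, 0, 0] =
        !![0, 1, -1; 1, 0, a * d * e; 1, 0, 0] := by
      ext x y
      fin_cases x <;> fin_cases y <;> simp [Matrix.mul_apply, Fin.sum_univ_three] <;> field_simp
    rw [h3]
    refine tri_one ?_ ?_
    · intro x
      fin_cases x <;> simp
    · simp

theorem tri (A : Matrix (Fin 3) (Fin 3) K) (h : ∀ x, A x x = 0) :
    ∃ P Q : Matrix (Fin 3) (Fin 3) K, P * Q = 1 ∧ Q * P = 1 ∧ (∀ x, (Q * A * P) x x = 0) ∧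
      ((Q * A * P) 0 1 = 0 ↔ (Q * A * P) 1 0 = 0) := by
  change TriGood A
  have p1 := tri_pair h 1
  have p2 := tri_pair h (Equiv.swap 1 2)
  have p3 := tri_pair h (Equiv.swap 0 2)
  have e1 : Equiv.swap (1 : Fin 3) 2 0 = 0 := by decide
  have e2 : Equiv.swap (1 : Fin 3) 2 1 = 2 := by decide
  have e2' : Equiv.swap (1 : Fin 3) 2 2 = 1 := by decide
  have e3 : Equiv.swap (0 : Fin 3) 2 0 = 2 := by decide
  have e4 : Equiv.swap (0 : Fin 3) 2 1 = 1 := by decide
  have e5 : Equiv.swap (0 : Fin 3) 2 2 = 0 := by decide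
  rw [e1, e2] at p2
  rw [e3, e4] at p3
  simp only [Equiv.Perm.coe_one, id_eq] at p1
  have T : ∀ e : Equiv.Perm (Fin 3), A (e 1) (e 0) = 0 → A (e 2) (e 0) = 0 →
      A (e 2) (e 1) = 0 → A (e 0) (e 1) ≠ 0 → TriGood A := fun e t1 t2 t3 t4 =>
    tri_perm e (tri_T (fun x => h (e x)) t1 t2 t3 t4)
  have C : ∀ e : Equiv.Perm (Fin 3), A (e 1) (e 0) = 0 → A (e 0) (e 2) = 0 →
      A (e 2) (e 1) = 0 → A (e 1) (e 2) ≠ 0 → A (e 2) (e 0) ≠ 0 → TriGood A :=
    fun e t1 t2 t3 t4 t5 => tri_perm e (tri_C (fun x => h (e x)) t1 t2 t3 t4 t5)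
  have T1 := T 1
  have T2 := T (Equiv.swap 1 2)
  have T3 := T (Equiv.swap 0 2)
  have T4 := T (Equiv.swap 0 1)
  have T5 := T (Equiv.swap 0 1 * Equiv.swap 1 2)
  have T6 := T (Equiv.swap 1 2 * Equiv.swap 0 1)
  have C1 := C 1
  have C2 := C (Equiv.swap 1 2)
  have f1 : Equiv.swap (0 : Fin 3) 1 0 = 1 := by decide
  have f2 : Equiv.swap (0 : Fin 3) 1 1 = 0 := by decide
  have f3 : Equiv.swap (0 : Fin 3) 1 2 = 2 := by decide
  simp only [Equiv.Perm.coe_one, id_eq, Equiv.Perm.mul_apply, e1, e2, e2', e3, e4, e5, f1, f2, f3]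
    at T1 T2 T3 T4 T5 T6 C1 C2
  by_cases a01 : A 0 1 = 0 <;> by_cases a10 : A 1 0 = 0 <;> by_cases a02 : A 0 2 = 0 <;>
    by_cases a20 : A 2 0 = 0 <;> by_cases a12 : A 1 2 = 0 <;> by_cases a21 : A 2 1 = 0 <;>
    simp_all

end MLI
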