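import Pool.Agent.Work.MP_05d08f_al.AS.A01
import Pool.Agent.Work.MP_05d08f_al.RS.Defs
import Pool.Agent.Work.MP_05d08f_al.RS.Tri

set_option autoImplicit false

/-!
# Nf (size M-L): every hollow matrix of odd size is similar to a matrix in normal form

PROOF. Induction on `k`, for all index types `ι` with `2 k + 1` elements (statement `hollow_nf`).
`k = 0`: `ι` has one element, take `P`, `Q` the `0/1` matrices of the equivalence `ι ≃ (Fin 0 × ZMod 2) ⊕ Unit`
(reindexing: `P = (1 : Matrix ι ι K).submatrix id e.symm` etc., or reduce to `A.submatrix`).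
Step `k → k + 1`: `ι` has `2 k + 3 ≥ 3` elements; choose an equivalence `ι ≃ Fin 3 ⊕ κ` with
`card κ = 2 k` and write `A = fromBlocks A₁₁ A₁₂ A₂₁ A₂₂` with hollow `A₁₁`, `A₂₂`. By `tri` (Tri.lean) there are
`P₁, Q₁` for `A₁₁`; conjugate by `fromBlocks P₁ 0 0 1` and `fromBlocks Q₁ 0 0 1`: the new matrix `A'` is hollow, and
its entries `(inl 0, inl 1)`, `(inl 1, inl 0)` are both zero or both nonzero. Regroup `Fin 3 ⊕ κ` as
`ZMod 2 ⊕ λ`, where `ZMod 2` stands for `inl 0, inl 1` and `λ` for `inl 2` and `κ`, `card λ = 2 k + 1`: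
`A' = fromBlocks C * * A''` with `A''` hollow. By the induction hypothesis for `A''` there are `P₂`, `Q₂`;
conjugate by `fromBlocks 1 0 0 P₂`, which does not change the corner `C`; reindex
`ZMod 2 ⊕ ((Fin k × ZMod 2) ⊕ Unit) ≃ (Fin (k+1) × ZMod 2) ⊕ Unit` (the corner becomes the pair `p = 0`, the pair
`p : Fin k` becomes `p.succ`).
-/

namespace MLI

open Matrix ALK

variable {K : Type*} [Field K]

private theorem low {α ι κ : Type*} [Fintype α] [DecidableEq α] [Fintype ι] [DecidableEq ι]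
    [Fintype κ] [DecidableEq κ] (C : Matrix α α K) (U : Matrix α ι K) (V : Matrix ι α K)
    {D : Matrix ι ι K} {D' : Matrix κ κ K} (h : Sim D D') :
    ∃ (U' : Matrix α κ K) (V' : Matrix κ α K),
      Sim (Matrix.fromBlocks C U V D) (Matrix.fromBlocks C U' V' D') := by
  obtain ⟨P, Q, h1, h2, h3⟩ := h
  refine ⟨U * P, Q * V, Matrix.fromBlocks 1 0 0 P, Matrix.fromBlocks 1 0 0 Q, ?_, ?_, ?_⟩
  · rw [Matrix.fromBlocks_multiply]; simp [h1]
  · rw [Matrix.fromBlocks_multiply]; simp [h2]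
  · rw [Matrix.fromBlocks_multiply, Matrix.fromBlocks_multiply]; simp [h3]

private theorem upp {α β ι : Type*} [Fintype α] [DecidableEq α] [Fintype β] [DecidableEq β]
    [Fintype ι] [DecidableEq ι] {C : Matrix α α K} {C' : Matrix β β K} (U : Matrix α ι K)
    (V : Matrix ι α K) (D : Matrix ι ι K) (h : Sim C C') :
    ∃ (U' : Matrix β ι K) (V' : Matrix ι β K),
      Sim (Matrix.fromBlocks C U V D) (Matrix.fromBlocks C' U' V' D) := by
  obtain ⟨P, Q, h1, h2, h3⟩ := h
  refine ⟨Q * U, V * P, Matrix.fromBlocks P 0 0 1, Matrix.fromBlocks Q 0 0 1, ?_, ?_, ?_⟩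
  · rw [Matrix.fromBlocks_multiply]; simp [h1]
  · rw [Matrix.fromBlocks_multiply]; simp [h2]
  · rw [Matrix.fromBlocks_multiply, Matrix.fromBlocks_multiply]; simp [h3]

private theorem two_cases : ∀ a : ZMod 2, a = 0 ∨ a = 1 := by decide

/-- Splitting off two of the three indices. -/
private theorem exists_e2 (l : ℕ) : ∃ e : ZMod 2 ⊕ (Unit ⊕ Fin l) ≃ Fin 3 ⊕ Fin l,
    e (Sum.inl 0) = Sum.inl 0 ∧ e (Sum.inl 1) = Sum.inl 1 := by
  let f : ZMod 2 ⊕ (Unit ⊕ Fin l) → Fin 3 ⊕ Fin l :=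
    Sum.elim (fun a => if a = 0 then Sum.inl 0 else Sum.inl 1)
      (Sum.elim (fun _ => Sum.inl 2) Sum.inr)
  have hinj : Function.Injective f := by
    rintro (a | (⟨⟩ | x)) (b | (⟨⟩ | y)) h
    · rcases two_cases a with rfl | rfl <;> rcases two_cases b with rfl | rfl
      · rfl
      · simp [f] at h
      · simp [f] at h
      · rfl
    · rcases two_cases a with rfl | rfl <;> simp [f] at h
    · rcases two_cases a with rfl | rfl <;> simp [f] at h
    · rcases two_cases b with rfl | rfl <;> simp [f] at h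
    · rfl
    · simp [f] at h
    · rcases two_cases b with rfl | rfl <;> simp [f] at h
    · simp [f] at h
    · simp only [f, Sum.elim_inr, Sum.inr.injEq] at h
      rw [h]
  have hbij : Function.Bijective f := by
    rw [Fintype.bijective_iff_injective_and_card]
    refine ⟨hinj, ?_⟩
    simp [ZMod.card]
    omega
  refine ⟨Equiv.ofBijective f hbij, ?_, ?_⟩
  · simp [f]
  · simp [f]

/-- Regrouping the pairs. -/
private theorem exists_e3 (k : ℕ) :
    ∃ e : (Fin (k + 1) × ZMod 2) ⊕ Unit ≃ ZMod 2 ⊕ ((Fin k × ZMod 2) ⊕ Unit),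
      (∀ a, e (Sum.inl (0, a)) = Sum.inl a) ∧
        ∀ (p : Fin k) a, e (Sum.inl (p.succ, a)) = Sum.inr (Sum.inl (p, a)) := by
  let f : (Fin (k + 1) × ZMod 2) ⊕ Unit → ZMod 2 ⊕ ((Fin k × ZMod 2) ⊕ Unit) :=
    Sum.elim (fun q => Fin.cases (motive := fun _ => ZMod 2 ⊕ ((Fin k × ZMod 2) ⊕ Unit))
      (Sum.inl q.2) (fun p => Sum.inr (Sum.inl (p, q.2))) q.1) (fun _ => Sum.inr (Sum.inr ()))
  have hinj : Function.Injective f := by
    rintro (⟨p, a⟩ | ⟨⟩) (⟨q, b⟩ | ⟨⟩) h
    · refine Fin.cases ?_ (fun p => ?_) p h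
      · intro h
        refine Fin.cases ?_ (fun q => ?_) q h
        · intro h
          simp only [f, Sum.elim_inl, Fin.cases_zero, Sum.inl.injEq] at h
          rw [h]
        · intro h
          simp [f] at h
      · intro h
        refine Fin.cases ?_ (fun q => ?_) q h
        · intro h
          simp [f] at h
        · intro h
          simp only [f, Sum.elim_inl, Fin.cases_succ, Sum.inr.injEq, Sum.inl.injEq,
            Prod.mk.injEq] at h
          rw [h.1, h.2]
    · refine Fin.cases ?_ (fun p => ?_) p h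
      · intro h; simp [f] at h
      · intro h; simp [f] at h
    · refine Fin.cases ?_ (fun q => ?_) q h
      · intro h; simp [f] at h
      · intro h; simp [f] at h
    · rfl
  have hbij : Function.Bijective f := by
    rw [Fintype.bijective_iff_injective_and_card]
    refine ⟨hinj, ?_⟩
    simp [ZMod.card]
    ring
  refine ⟨Equiv.ofBijective f hbij, ?_, ?_⟩
  · intro a; simp [f]
  · intro p a; simp [f]

private theorem nf_aux (k : ℕ) : ∀ (ι : Type) [Fintype ι] [DecidableEq ι],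
    Fintype.card ι = 2 * k + 1 → ∀ A : Matrix ι ι K, (∀ x, A x x = 0) →
      ∃ A' : Matrix ((Fin k × ZMod 2) ⊕ Unit) ((Fin k × ZMod 2) ⊕ Unit) K, NF A' ∧ Sim A A' := by
  induction k with
  | zero =>
    intro ι _ _ hι A hA
    let e : (Fin 0 × ZMod 2) ⊕ Unit ≃ ι := Fintype.equivOfCardEq (by simp [hι])
    exact ⟨A.submatrix e e, ⟨fun x => hA _, fun p => p.elim0⟩, Sim.submatrix A e⟩
  | succ k ih =>
    intro ι _ _ hι A hA
    let e : Fin 3 ⊕ Fin (2 * k) ≃ ι := Fintype.equivOfCardEq (by simp [hι]; omega)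
    have s1 := Sim.submatrix A e
    have hB := Matrix.fromBlocks_toBlocks (A.submatrix e e)
    rw [← hB] at s1
    obtain ⟨P, Q, h1, h2, h3, h4⟩ := tri (A.submatrix e e).toBlocks₁₁ (fun x => hA _)
    obtain ⟨U, V, s2⟩ := upp (A.submatrix e e).toBlocks₁₂ (A.submatrix e e).toBlocks₂₁
      (A.submatrix e e).toBlocks₂₂
      (⟨P, Q, h1, h2, rfl⟩ : Sim (A.submatrix e e).toBlocks₁₁ (Q * (A.submatrix e e).toBlocks₁₁ * P))
    obtain ⟨A2, hA2⟩ : ∃ A2, A2 = Matrix.fromBlocks (Q * (A.submatrix e e).toBlocks₁₁ * P) U V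
      (A.submatrix e e).toBlocks₂₂ := ⟨_, rfl⟩
    rw [← hA2] at s2
    have hd2 : ∀ x, A2 x x = 0 := by
      rintro (x | x)
      · rw [hA2, Matrix.fromBlocks_apply₁₁]; exact h3 x
      · rw [hA2, Matrix.fromBlocks_apply₂₂]; exact hA _
    have hg2 : A2 (Sum.inl 0) (Sum.inl 1) = 0 ↔ A2 (Sum.inl 1) (Sum.inl 0) = 0 := by
      rw [hA2, Matrix.fromBlocks_apply₁₁, Matrix.fromBlocks_apply₁₁]; exact h4
    obtain ⟨e2, he0, he1⟩ := exists_e2 (2 * k)
    have s3 := Sim.submatrix A2 e2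
    have hC := Matrix.fromBlocks_toBlocks (A2.submatrix e2 e2)
    rw [← hC] at s3
    obtain ⟨D', hD', s4⟩ := ih (Unit ⊕ Fin (2 * k)) (by simp; omega)
      (A2.submatrix e2 e2).toBlocks₂₂ (fun x => hd2 _)
    obtain ⟨U', V', s5⟩ := low (A2.submatrix e2 e2).toBlocks₁₁ (A2.submatrix e2 e2).toBlocks₁₂
      (A2.submatrix e2 e2).toBlocks₂₁ s4
    obtain ⟨e3, h30, h3s⟩ := exists_e3 k
    refine ⟨(Matrix.fromBlocks (A2.submatrix e2 e2).toBlocks₁₁ U' V' D').submatrix e3 e3, ⟨?_, ?_⟩,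
      (((s1.trans s2).trans s3).trans s5).trans (Sim.submatrix _ e3)⟩
    · intro x
      rw [Matrix.submatrix_apply]
      rcases e3 x with y | y
      · rw [Matrix.fromBlocks_apply₁₁]; exact hd2 _
      · rw [Matrix.fromBlocks_apply₂₂]; exact hD'.1 y
    · intro p
      refine Fin.cases ?_ (fun p => ?_) p
      · rw [Matrix.submatrix_apply, Matrix.submatrix_apply, h30, h30, Matrix.fromBlocks_apply₁₁,
          Matrix.fromBlocks_apply₁₁]
        have h5 : (A2.submatrix e2 e2).toBlocks₁₁ 0 1 = A2 (Sum.inl 0) (Sum.inl 1) := by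
          rw [← he0, ← he1]; rfl
        have h6 : (A2.submatrix e2 e2).toBlocks₁₁ 1 0 = A2 (Sum.inl 1) (Sum.inl 0) := by
          rw [← he0, ← he1]; rfl
        rw [h5, h6]
        exact hg2
      · rw [Matrix.submatrix_apply, Matrix.submatrix_apply, h3s, h3s, Matrix.fromBlocks_apply₂₂,
          Matrix.fromBlocks_apply₂₂]
        exact hD'.2 p

theorem hollow_nf (k : ℕ) {ι : Type} [Fintype ι] [DecidableEq ι] (hι : Fintype.card ι = 2 * k + 1)
    (A : Matrix ι ι K) (hA : ∀ x, A x x = 0) :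
    ∃ (P : Matrix ι ((Fin k × ZMod 2) ⊕ Unit) K) (Q : Matrix ((Fin k × ZMod 2) ⊕ Unit) ι K),
      P * Q = 1 ∧ Q * P = 1 ∧ NF (Q * A * P) := by
  obtain ⟨A', h1, P, Q, h2, h3, h4⟩ := nf_aux k ι hι A hA
  exact ⟨P, Q, h2, h3, by rw [h4]; exact h1⟩

end MLI
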