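import Pool.Agent.Work.MP_05d08f_al.RS.Odd
import Pool.Agent.Work.MP_05d08f_al.RS.Let
import Pool.Agent.Work.MP_05d08f_al.RS.Nf
import Pool.Agent.Work.MP_05d08f_al.RS.Lie

set_option autoImplicit false

/-!
# Main: reversal-symmetric polynomials and Lie polynomials
-/

namespace MLI

open Matrix Equiv

variable {K : Type*} [Field K] {m : ℕ}

/-- Values and rectangular similarity. -/
private theorem hit_of_sim {ι κ : Type*} [Fintype ι] [DecidableEq ι] [Fintype κ] [DecidableEq κ]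
    (c : Perm (Fin m) → K) (B : Matrix ι ι K) (P : Matrix ι κ K) (Q : Matrix κ ι K)
    (h1 : P * Q = 1) (h2 : Q * P = 1) (e : κ ≃ ι)
    (h : ∃ a : Fin m → Matrix κ κ K, ev c a = Q * B * P) :
    ∃ a : Fin m → Matrix ι ι K, ev c a = B := by
  obtain ⟨a, ha⟩ := h
  refine hit_of_conj c B (P.submatrix id e.symm) (Q.submatrix e.symm id) ?_ ?_ ?_
  · rw [Matrix.submatrix_mul_equiv, h1]
    exact Matrix.submatrix_id_id _
  · have h3 := Matrix.submatrix_mul_equiv Q P e.symm (Equiv.refl ι) e.symm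
    have h4 : (Q.submatrix e.symm id) * (P.submatrix id e.symm) =
        (Q * P).submatrix e.symm e.symm := h3
    rw [h4, h2]
    exact Matrix.submatrix_one_equiv e.symm
  · refine ⟨fun j => (a j).submatrix e.symm e.symm, ?_⟩
    rw [ev_submatrix, ha]
    ext x y
    rfl

theorem odd_size [Infinite K] (c : Perm (Fin m) → K) (ε : K) (hε : ε ≠ 0)
    (hc : ∀ σ, c (σ * Fin.revPerm) = ε * c σ) (b : Fin m → Matrix (Fin 2) (Fin 2) K)
    (hb : ∀ t : K, ev c b ≠ Matrix.scalar (Fin 2) t) {n : ℕ} (hn : Odd n)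
    (B : Matrix (Fin n) (Fin n) K) (htr : B.trace = 0)
    (hB : B = 0 ∨ ∀ t : K, B ≠ Matrix.scalar (Fin n) t) :
    ∃ a : Fin m → Matrix (Fin n) (Fin n) K, ev c a = B := by
  obtain ⟨G, G', h1, h2, h3⟩ := exists_hollow B htr hB
  refine hit_of_conj c B G G' h1 h2 ?_
  obtain ⟨k, hk⟩ := hn
  obtain ⟨P, Q, h4, h5, h6⟩ := hollow_nf k (by rw [Fintype.card_fin, hk]) (G' * B * G) h3
  let e : (Fin k × ZMod 2) ⊕ Unit ≃ Fin n := Fintype.equivOfCardEq (by
    simp [ZMod.card, hk, mul_comm])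
  refine hit_of_sim c _ P Q h4 h5 e ?_
  let e2 : ZMod 2 ≃ Fin 2 := Fintype.equivOfCardEq (by simp [ZMod.card])
  have hb2 : ∀ t : K, ev c (fun j => (b j).submatrix e2 e2) ≠ Matrix.scalar (ZMod 2) t := by
    intro t ht
    rw [ev_submatrix] at ht
    apply hb t
    have h4 := congrArg (fun M => M.submatrix e2.symm e2.symm) ht
    simp only [Matrix.submatrix_submatrix, Equiv.self_comp_symm, Matrix.submatrix_id_id] at h4
    rw [h4, scalar_submatrix]
  obtain ⟨i, g, D0, hg, hdet⟩ := two_core c _ hb2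
  obtain ⟨j, hj⟩ := exists_letter c i g D0 hdet
  exact odd_nf c ε hε hc i j g hg D0 hdet hj _ h6

theorem rs_main [Infinite K] (c : Perm (Fin m) → K) (ε : K) (hε : ε ≠ 0)
    (hc : ∀ σ, c (σ * Fin.revPerm) = ε * c σ) (b : Fin m → Matrix (Fin 2) (Fin 2) K)
    (hb : ∀ t : K, ev c b ≠ Matrix.scalar (Fin 2) t) {n : ℕ}
    (B : Matrix (Fin n) (Fin n) K) (htr : B.trace = 0)
    (hB : B = 0 ∨ ∀ t : K, B ≠ Matrix.scalar (Fin n) t) :
    ∃ a : Fin m → Matrix (Fin n) (Fin n) K, ev c a = B := by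
  rcases Nat.even_or_odd n with hn | hn
  · exact even_size c b hb hn B htr hB
  · exact odd_size c ε hε hc b hb hn B htr hB

/-- A trace zero matrix that is scalar is zero if `n` is not zero in `K`. -/
theorem zero_or_nonscalar {n : ℕ} (B : Matrix (Fin n) (Fin n) K) (hB : B.trace = 0)
    (hB' : (n : K) ≠ 0 ∨ B = 0 ∨ ∀ t : K, B ≠ Matrix.scalar (Fin n) t) :
    B = 0 ∨ ∀ t : K, B ≠ Matrix.scalar (Fin n) t := by
  rcases hB' with h | h
  · by_cases h1 : ∀ t : K, B ≠ Matrix.scalar (Fin n) t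
    · exact Or.inr h1
    · left
      push Not at h1
      obtain ⟨t, ht⟩ := h1
      rw [ht] at hB
      have h2 : (n : K) * t = 0 := by
        simpa [Matrix.trace, Matrix.scalar_apply] using hB
      rcases mul_eq_zero.1 h2 with h3 | h3
      · exact absurd h3 h
      · rw [ht, h3]
        ext x y
        simp [Matrix.scalar_apply, Matrix.diagonal_apply]
  · exact h

/-- The hypothesis in plain form. -/
theorem rs_plain [Infinite K] (c : Perm (Fin m) → K)
    (hc : (∀ σ τ : Perm (Fin m), (∀ k, τ k = σ k.rev) → c τ = c σ) ∨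
      ∀ σ τ : Perm (Fin m), (∀ k, τ k = σ k.rev) → c τ = - c σ)
    (b : Fin m → Matrix (Fin 2) (Fin 2) K)
    (hb : ∀ t : K, ev c b ≠ Matrix.scalar (Fin 2) t) {n : ℕ}
    (B : Matrix (Fin n) (Fin n) K) (htr : B.trace = 0)
    (hB : (n : K) ≠ 0 ∨ B = 0 ∨ ∀ t : K, B ≠ Matrix.scalar (Fin n) t) :
    ∃ a : Fin m → Matrix (Fin n) (Fin n) K, ev c a = B := by
  have hB2 := zero_or_nonscalar B htr hB
  rcases hc with hc | hc
  · exact rs_main c 1 one_ne_zero (fun σ => by rw [one_mul]; exact hc σ _ fun k => rfl) b hb B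
      htr hB2
  · exact rs_main c (-1) (neg_ne_zero.2 one_ne_zero)
      (fun σ => by rw [neg_one_mul]; exact hc σ _ fun k => rfl) b hb B htr hB2

/-- Multilinear Lie polynomials. -/
theorem lie_plain [Infinite K] (lam : Perm (Fin (m + 1)) → K)
    (b : Fin (m + 1) → Matrix (Fin 2) (Fin 2) K)
    (hb : ∀ t : K, (∑ σ : Perm (Fin (m + 1)), lam σ •
      (List.ofFn fun k : Fin m => b (σ k.castSucc)).foldr (fun x y => x * y - y * x)
        (b (σ (Fin.last m)))) ≠ Matrix.scalar (Fin 2) t) {n : ℕ}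
    (B : Matrix (Fin n) (Fin n) K) (htr : B.trace = 0)
    (hB : (n : K) ≠ 0 ∨ B = 0 ∨ ∀ t : K, B ≠ Matrix.scalar (Fin n) t) :
    ∃ a : Fin (m + 1) → Matrix (Fin n) (Fin n) K, (∑ σ : Perm (Fin (m + 1)), lam σ •
      (List.ofFn fun k : Fin m => a (σ k.castSucc)).foldr (fun x y => x * y - y * x)
        (a (σ (Fin.last m)))) = B := by
  obtain ⟨c, hc, hev⟩ := lie_coeff lam
  obtain ⟨a, ha⟩ := rs_main c ((-1) ^ m) (pow_ne_zero _ (neg_ne_zero.2 one_ne_zero)) hc b
    (fun t => by rw [hev]; exact hb t) B htr (zero_or_nonscalar B htr hB)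
  exact ⟨a, by rw [← hev]; exact ha⟩

end MLI
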