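import Pool.Agent.Work.MP_05d08f_al.RS.Defs

set_option autoImplicit false

/-!
# Gl (size M): the words ending in `j`

PROOF.
`gl_shift`: `wt_shift` (Mono.lean) in each term.
`IsPoly.gl`: `IsPoly.sum`, `IsPoly.ite`, `IsPoly.const`, `IsPoly.wt` as in `IsPoly.Lam_det`.
`Phi_col`: in `Phi c j X 0 y` the term of `σ` contains `((wr σ j).map 0).prod`, which is `1` if `wr σ j = []`
and `0` otherwise (a nonempty list whose entries are all the zero `Unit × Unit` matrix). If `wr σ j = []`
then `((wl σ j).map X).prod = Gm (sh g (wl σ j)) (wt g D (wl σ j))` (`prod_Gm`) and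
`sh g (wl σ j) = ∑ l, g l - g j` by `sh_word`; the entry `(a, u)` of `Gm h d * y` is `d a * y (a + h) u`.
`col_surj`: `z b u = w (b - h) u / gl c j g D (b - h)` with `h = ∑ l, g l - g j`, by `Phi_col`.
`Lam_zero_det`: by `exists_mulVec_eq_zero_iff` it is enough that `Lam *ᵥ ζ = 0` implies `ζ = 0`; the row
`a` of `Lam c j g c0 D 0` has the entry `gl c j g D a` at `a' = a + h` and zeros elsewhere, because
`wt g 0 l b = 0` for `l ≠ []` and `= 1` for `l = []`. So `(Lam *ᵥ ζ) a = gl c j g D a * ζ (a + h)`.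
-/

namespace MLI

open Matrix Equiv

variable {K : Type*} [Field K] {m : ℕ}

private theorem sh_of_nil (g : Fin m → ZMod 2) (σ : Perm (Fin m)) (j : Fin m)
    (h : wr σ j = []) : sh g (wl σ j) = ∑ l, g l - g j := by
  rw [← sh_word g σ j, h]
  simp [sh]

private theorem prod_map_zero {σ : Perm (Fin m)} {j : Fin m} (h : wr σ j ≠ []) :
    ((wr σ j).map fun _ => (0 : Matrix Unit Unit K)).prod = 0 := by
  obtain ⟨x, l, hl⟩ := List.exists_cons_of_ne_nil h
  rw [hl, List.map_cons, List.prod_cons, zero_mul]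

private theorem wt_zero (g : Fin m → ZMod 2) {l : List (Fin m)} (h : l ≠ []) (b : ZMod 2) :
    wt g (fun _ _ => (0 : K)) l b = 0 := by
  obtain ⟨x, l', hl⟩ := List.exists_cons_of_ne_nil h
  rw [hl]
  simp only [wt, zero_mul]

private theorem Gm_mul_apply (h : ZMod 2) (d : ZMod 2 → K) (y : Matrix (ZMod 2) Unit K)
    (a : ZMod 2) (u : Unit) : (Gm h d * y) a u = d a * y (a + h) u := by
  rw [Matrix.mul_apply, Finset.sum_eq_single (a + h)]
  · rw [Gm_apply, if_pos rfl]
  · intro x _ hx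
    rw [Gm_apply, if_neg hx, zero_mul]
  · intro hx
    exact absurd (Finset.mem_univ _) hx

theorem gl_shift (c : Perm (Fin m) → K) (j : Fin m) (g : Fin m → ZMod 2) (D : Fin m → ZMod 2 → K)
    (k a : ZMod 2) : gl c j g (fun l x => D l (x + k)) a = gl c j g D (a + k) := by
  unfold gl
  simp only [wt_shift]

theorem IsPoly.gl {J : Type*} (c : Perm (Fin m) → K) (j : Fin m) (g : Fin m → ZMod 2)
    {D : (J → K) → Fin m → ZMod 2 → K} (hD : ∀ l a, IsPoly (fun x => D x l a)) (a : ZMod 2) :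
    IsPoly (fun x => MLI.gl c j g (D x) a) := by
  unfold MLI.gl
  exact IsPoly.sum _ fun σ _ => IsPoly.ite _
    ((IsPoly.const _).mul (IsPoly.wt g hD _ _)) (IsPoly.const _)

theorem Phi_col (c : Perm (Fin m) → K) (j : Fin m) (g : Fin m → ZMod 2) (D : Fin m → ZMod 2 → K)
    (y : Matrix (ZMod 2) Unit K) (a : ZMod 2) (u : Unit) :
    Phi c j (fun l => Gm (g l) (D l)) (fun _ => (0 : Matrix Unit Unit K)) y a u =
      gl c j g D a * y (a + (∑ l, g l - g j)) u := by
  unfold Phi gl
  rw [Matrix.sum_apply, Finset.sum_mul]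
  refine Finset.sum_congr rfl fun σ _ => ?_
  by_cases hw : wr σ j = []
  · rw [if_pos hw, hw, List.map_nil, List.prod_nil, Matrix.mul_one, prod_Gm, Matrix.smul_apply,
      Gm_mul_apply, smul_eq_mul, sh_of_nil g σ j hw]
    ring
  · rw [if_neg hw, prod_map_zero hw, Matrix.mul_zero, smul_zero, zero_mul, Matrix.zero_apply]

theorem col_surj (c : Perm (Fin m) → K) (j : Fin m) (g : Fin m → ZMod 2) (D : Fin m → ZMod 2 → K)
    (h : ∀ a, gl c j g D a ≠ 0) (w : Matrix (ZMod 2) Unit K) :
    ∃ z : Matrix (ZMod 2) Unit K,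
      Phi c j (fun l => Gm (g l) (D l)) (fun _ => (0 : Matrix Unit Unit K)) z = w := by
  refine ⟨Matrix.of fun b u => w (b - (∑ l, g l - g j)) u / gl c j g D (b - (∑ l, g l - g j)), ?_⟩
  ext a u
  rw [Phi_col, Matrix.of_apply, add_sub_cancel_right, mul_div_assoc', mul_comm,
    mul_div_assoc, div_self (h a), mul_one]

theorem Lam_zero_det (c : Perm (Fin m) → K) (j : Fin m) (g : Fin m → ZMod 2)
    (D : Fin m → ZMod 2 → K) (h : ∀ a, gl c j g D a ≠ 0) (c0 : ZMod 2) :
    (Lam c j g c0 D (fun _ _ => 0)).det ≠ 0 := by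
  have hL : Lam c j g c0 D (fun _ _ => 0) = Gm (∑ l, g l - g j) (gl c j g D) := by
    ext a a'
    rw [Gm_apply]
    simp only [Lam, Matrix.of_apply, gl]
    have h1 : ∀ σ : Perm (Fin m), (if a' = a + sh g (wl σ j) then
        c σ * (wt g D (wl σ j) a * wt g (fun _ _ => 0) (wr σ j) (a' + c0)) else 0) =
        if a' = a + (∑ l, g l - g j) then
          (if wr σ j = [] then c σ * wt g D (wl σ j) a else 0) else 0 := by
      intro σ
      by_cases hw : wr σ j = []
      · rw [sh_of_nil g σ j hw, if_pos hw, hw]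
        simp only [wt, mul_one]
      · rw [if_neg hw, wt_zero g hw, mul_zero, mul_zero, ite_self, ite_self]
    simp only [h1]
    by_cases ha : a' = a + (∑ l, g l - g j)
    · simp only [ha, if_true]
    · simp only [ha, if_false, Finset.sum_const_zero]
  rw [hL]
  intro hdet
  obtain ⟨v, hv, hv0⟩ := Matrix.exists_mulVec_eq_zero_iff.2 hdet
  apply hv
  funext b
  have h1 := congrFun hv0 (b - (∑ l, g l - g j))
  rw [Matrix.mulVec, dotProduct, Finset.sum_eq_single b] at h1
  · rw [Gm_apply, if_pos (by abel)] at h1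
    exact (mul_eq_zero.1 h1).resolve_left (h _)
  · intro x _ hx
    rw [Gm_apply, if_neg, zero_mul]
    intro h2
    exact hx (by rw [h2]; abel)
  · intro h2
    exact absurd (Finset.mem_univ _) h2

end MLI
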