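import Pool.Agent.Work.MP_05d08f_al.RS.Sel
import Pool.Agent.Work.MP_05d08f_al.RS.Gl

set_option autoImplicit false

/-!
# GenR (size M): one generic family for all block equations

PROOF. Write `D_p l a = x (p, l, a)`. Apply `exists_sel` (Sel.lean) to the finite family of polynomial functions,
indexed by `(B × ZMod 2) ⊕ (B × ZMod 2) ⊕ (B × B × ZMod 2)`:
* `x ↦ gl c j g D_p a` (`IsPoly.gl`); nonzero somewhere by `hj`;
* `x ↦ gl c j g (fun l y => D_p l (y + g l)) a`; nonzero somewhere: for the `D` of `hj a` take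
  `D_p l y = D l (y + g l)` and use `y + g l + g l = y` in `ZMod 2`;
* `x ↦ if p = q then 1 else (Lam c j g c0 D_p D_q).det` (`IsPoly.Lam_det`, `IsPoly.ite`); nonzero somewhere for
  `p ≠ q`: choose `D` with `gl c j g D a ≠ 0` for both `a` (`exists_common` with `IsPoly.gl` and `hj`), take
  `D_p = D`, `D_q = 0`, and use `Lam_zero_det` (Gl.lean).
-/

namespace MLI

open Matrix Equiv

variable {K : Type*} [Field K] {m : ℕ}

/-- A point where the coefficients of both rows are nonzero. -/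
private theorem exists_both [Infinite K] (c : Perm (Fin m) → K) (j : Fin m) (g : Fin m → ZMod 2)
    (hj : ∀ a : ZMod 2, ∃ D : Fin m → ZMod 2 → K, gl c j g D a ≠ 0) :
    ∃ D : Fin m → ZMod 2 → K, ∀ a, gl c j g D a ≠ 0 := by
  obtain ⟨x, hx⟩ := exists_common (J := Fin m × ZMod 2) (K := K) (ι := ZMod 2) Finset.univ
    (P := fun a x => gl c j g (fun l y => x (l, y)) a)
    (fun a _ => IsPoly.gl c j g (fun l y => IsPoly.coord _) a)
    (fun a _ => by
      obtain ⟨D, hD⟩ := hj a
      exact ⟨fun q => D q.1 q.2, hD⟩)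
  exact ⟨fun l y => x (l, y), fun a => hx a (Finset.mem_univ a)⟩

theorem rs_gen [Infinite K] {B : Type*} [Fintype B] [DecidableEq B] (c : Perm (Fin m) → K)
    (i j : Fin m) (g : Fin m → ZMod 2) (D0 : Fin m → ZMod 2 → K)
    (hdet : (Lam c i g (g i) D0 D0).det ≠ 0)
    (hj : ∀ a : ZMod 2, ∃ D : Fin m → ZMod 2 → K, gl c j g D a ≠ 0)
    (r : B → K) (hr : ∀ p, r p ≠ 0) :
    ∃ (D : B → Fin m → ZMod 2 → K) (t : B → K),
      (∀ p a, gl c j g (D p) a ≠ 0) ∧
      (∀ p a, gl c j g (fun l y => D p l (y + g l)) a ≠ 0) ∧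
      (∀ p q, p ≠ q → ∀ c0, (Lam c j g c0 (D p) (D q)).det ≠ 0) ∧
      ∀ p, t p ≠ 0 ∧ co c g 0 (D p) ≠ 0 ∧ co c g 1 (D p) ≠ 0 ∧
        co c g 0 (D p) = r p * t p ^ 2 * co c g 1 (D p) := by
  classical
  let P : (B × ZMod 2) ⊕ ((B × ZMod 2) ⊕ (B × B × ZMod 2)) → (B × Fin m × ZMod 2 → K) → K :=
    Sum.elim (fun (q : B × ZMod 2) (x : B × Fin m × ZMod 2 → K) =>
        gl c j g (fun l y => x (q.1, l, y)) q.2)
      (Sum.elim (fun (q : B × ZMod 2) (x : B × Fin m × ZMod 2 → K) =>
          gl c j g (fun l y => x (q.1, l, y + g l)) q.2)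
        (fun (q : B × B × ZMod 2) (x : B × Fin m × ZMod 2 → K) => if q.1 = q.2.1 then 1 else
          (Lam c j g q.2.2 (fun l y => x (q.1, l, y)) (fun l y => x (q.2.1, l, y))).det))
  obtain ⟨x, t, hx, ht⟩ := exists_sel (B := B) (K := K) c i g D0 hdet Finset.univ P
    (by
      rintro (q | q | q) _
      · exact IsPoly.gl c j g (fun l y => IsPoly.coord _) q.2
      · exact IsPoly.gl c j g (fun l y => IsPoly.coord _) q.2
      · exact IsPoly.ite _ (IsPoly.const _) (IsPoly.Lam_det c j g _ (fun l y => IsPoly.coord _)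
          (fun l y => IsPoly.coord _)))
    (by
      rintro (q | q | ⟨p, q, c0⟩) _
      · obtain ⟨D, hD⟩ := hj q.2
        exact ⟨fun w => D w.2.1 w.2.2, hD⟩
      · obtain ⟨D, hD⟩ := hj q.2
        refine ⟨fun w => D w.2.1 (w.2.2 + g w.2.1), ?_⟩
        have h1 : (fun l y => D l (y + g l + g l)) = D := by
          funext l y
          have h2 : ∀ y z : ZMod 2, y + z + z = y := by decide
          rw [h2]
        change gl c j g (fun l y => D l (y + g l + g l)) q.2 ≠ 0
        rw [h1]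
        exact hD
      · by_cases hpq : p = q
        · refine ⟨fun _ => 0, ?_⟩
          simp only [P, Sum.elim_inr, hpq, if_true]
          exact one_ne_zero
        · obtain ⟨D, hD⟩ := exists_both c j g hj
          refine ⟨fun w => if w.1 = p then D w.2.1 w.2.2 else 0, ?_⟩
          simp only [P, Sum.elim_inr, hpq, if_false, if_true, if_neg (Ne.symm hpq)]
          exact Lam_zero_det c j g D hD c0)
    r hr
  refine ⟨fun p l y => x (p, l, y), t, fun p a => ?_, fun p a => ?_, fun p q hpq c0 => ?_, ht⟩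
  · exact hx (Sum.inl (p, a)) (Finset.mem_univ _)
  · exact hx (Sum.inr (Sum.inl (p, a))) (Finset.mem_univ _)
  · have h1 := hx (Sum.inr (Sum.inr (p, q, c0))) (Finset.mem_univ _)
    simp only [P, Sum.elim_inr, if_neg hpq] at h1
    exact h1

end MLI
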