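import Pool.Agent.Work.MP_05d08f_al.RS.Defs

set_option autoImplicit false

/-!
# Hop (size M): block assembly with `k` blocks of size 2 and one block of size 1

PROOF. Apply `hit_of_blocks` (Basic.lean) with index set of blocks `Option (Fin k)`, block types
`none ↦ Unit`, `some p ↦ ZMod 2` (define a private family `Blk` by `match`, with private instances
`Fintype`, `DecidableEq` by `match`), with `X j none = 0`, `X j (some p) = X p j`, and with the matrix
`A.submatrix e e` for the equivalence `e : (Σ b, Blk b) ≃ (Fin k × ZMod 2) ⊕ Unit`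
(`⟨none, ()⟩ ↦ inr ()`, `⟨some p, a⟩ ↦ inl (p, a)`). The block equations:
`(some p, some q)` is `h1`, `(some p, none)` is `h2`, `(none, some p)` is `h3`; for `(none, none)` take
`z = 0` (`Phi_zero`, `hA`). Transport back with `ev_submatrix` (Basic.lean), as at the end of
`even_hit` in TwoGen.lean.
-/

namespace MLI

open Matrix Equiv

variable {K : Type*} [Field K] {m : ℕ}

private def HopB (k : ℕ) : Option (Fin k) → Type
  | none => Unit
  | some _ => ZMod 2

private instance hopFt (k : ℕ) : ∀ b, Fintype (HopB k b)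
  | none => inferInstanceAs (Fintype Unit)
  | some _ => inferInstanceAs (Fintype (ZMod 2))

private instance hopDe (k : ℕ) : ∀ b, DecidableEq (HopB k b)
  | none => inferInstanceAs (DecidableEq Unit)
  | some _ => inferInstanceAs (DecidableEq (ZMod 2))

private def hopX {k : ℕ} (X : Fin k → Fin m → Matrix (ZMod 2) (ZMod 2) K) (j : Fin m) :
    ∀ b, Matrix (HopB k b) (HopB k b) K
  | none => (0 : Matrix Unit Unit K)
  | some p => X p j

private def hopE (k : ℕ) : (Σ b, HopB k b) ≃ (Fin k × ZMod 2) ⊕ Unit where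
  toFun
    | ⟨none, _⟩ => Sum.inr ()
    | ⟨some p, a⟩ => Sum.inl (p, a)
  invFun
    | Sum.inr _ => ⟨none, ()⟩
    | Sum.inl (p, a) => ⟨some p, a⟩
  left_inv := by
    rintro ⟨_ | p, a⟩ <;> rfl
  right_inv := by
    rintro (⟨p, a⟩ | ⟨⟩) <;> rfl

theorem hit_option {k : ℕ} (c : Perm (Fin m) → K) (j : Fin m)
    (X : Fin k → Fin m → Matrix (ZMod 2) (ZMod 2) K)
    (A : Matrix ((Fin k × ZMod 2) ⊕ Unit) ((Fin k × ZMod 2) ⊕ Unit) K)
    (hA : A (Sum.inr ()) (Sum.inr ()) = 0)
    (h1 : ∀ p q : Fin k, ∃ z : Matrix (ZMod 2) (ZMod 2) K,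
      Phi c j (X p) (X q) z = Matrix.of fun a b => A (Sum.inl (p, a)) (Sum.inl (q, b)))
    (h2 : ∀ (p : Fin k) (w : Matrix (ZMod 2) Unit K), ∃ z : Matrix (ZMod 2) Unit K,
      Phi c j (X p) (fun _ => (0 : Matrix Unit Unit K)) z = w)
    (h3 : ∀ (p : Fin k) (w : Matrix Unit (ZMod 2) K), ∃ z : Matrix Unit (ZMod 2) K,
      Phi c j (fun _ => (0 : Matrix Unit Unit K)) (X p) z = w) :
    ∃ a : Fin m → Matrix ((Fin k × ZMod 2) ⊕ Unit) ((Fin k × ZMod 2) ⊕ Unit) K, ev c a = A := by
  obtain ⟨a, ha⟩ := hit_of_blocks (s := HopB k) c j (hopX X) (A.submatrix (hopE k) (hopE k)) (by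
    intro p q
    rcases p with _ | p <;> rcases q with _ | q
    · refine ⟨0, ?_⟩
      rw [Phi_zero]
      ext a b
      exact hA.symm
    · exact h3 q _
    · exact h2 p _
    · exact h1 p q)
  refine ⟨fun l => (a l).submatrix (hopE k).symm (hopE k).symm, ?_⟩
  rw [ev_submatrix, ha]
  ext x y
  simp

end MLI
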