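import Pool.Agent.Work.MP_05d08f_al.RS.Gl

set_option autoImplicit false

/-!
# Rev (size M): reversal of words and transposition of matrices

PROOF.
`wl_rev`, `wr_rev`: `(σ * Fin.revPerm) k = σ (Fin.rev k)`, so `List.ofFn (σ * Fin.revPerm)` is the reverse of
`List.ofFn σ` (`List.ofFn` and `List.reverse`: compare the entries, or `List.ext_getElem`). Now `ofFn_split`
for `σ` and for `σ * Fin.revPerm`: `wl' ++ i :: wr' = (wr).reverse ++ i :: (wl).reverse`, and `i` is in none of
the four lists (`not_mem_wl`, `not_mem_wr`); a list without repetitions splits in only one way at `i`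
(for example take lengths: `(σ * revPerm).symm i = rev (σ.symm i)`, and use `List.take`, `List.drop` of
`List.reverse`).
`Phi_transpose`: `(∏_{wl} X * z * ∏_{wr} Y)ᵀ = (∏_{wr} Y)ᵀ * zᵀ * (∏_{wl} X)ᵀ` and
`((l.map X).prod)ᵀ = (l.reverse.map fun l => (X l)ᵀ).prod` (`Matrix.transpose_list_prod` or induction).
So the term of `σ` on the right side is `ε c σ` times the word `σ * revPerm` in the transposed matrices;
substitute `σ ↦ σ * revPerm` in the sum (`Equiv.sum_comp (Equiv.mulRight Fin.revPerm)`).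
`Gm_transpose`: entries; `b = a + h ↔ a = b + h` in `ZMod 2`.
`row_surj`: let `D' l x = D l (x + g l)`, so `(Gm (g l) (D l))ᵀ = Gm (g l) (D' l)`. By `col_surj` for `D'` there is
`y` with `Phi c j (fun l => Gm (g l) (D' l)) 0 y = ε • wᵀ`. By `Phi_transpose` (with `X = 0`,
`Y l = Gm (g l) (D l)`, `z = yᵀ`) the left side is `ε • (Phi c j 0 Y yᵀ)ᵀ`. Cancel `ε ≠ 0`, transpose.
-/

namespace MLI

open Matrix Equiv

variable {K : Type*} [Field K] {m : ℕ}

private theorem ofFn_rev' (σ : Perm (Fin m)) :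
    (List.ofFn fun k => (σ * (Fin.revPerm : Perm (Fin m))) k) =
      (List.ofFn fun k => σ k).reverse := by
  refine List.ext_getElem ?_ ?_
  · rw [List.length_reverse, List.length_ofFn, List.length_ofFn]
  · intro n h1 h2
    rw [List.getElem_ofFn, List.getElem_reverse, List.getElem_ofFn, Perm.mul_apply,
      Fin.revPerm_apply]
    congr 1
    apply Fin.ext
    rw [Fin.val_rev]
    have h3 : (List.ofFn fun k => σ k).length = m := List.length_ofFn
    dsimp only
    omega

private theorem tr_list' {γ : Type*} [Fintype γ] [DecidableEq γ] (Z : Fin m → Matrix γ γ K)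
    (l : List (Fin m)) : ((l.map Z).prod)ᵀ = (l.reverse.map fun j => (Z j)ᵀ).prod := by
  rw [Matrix.transpose_list_prod, List.map_map, ← List.map_reverse]
  rfl

private theorem symm_rev' (σ : Perm (Fin m)) (i : Fin m) :
    ((σ * Fin.revPerm).symm i).val = m - ((σ.symm i).val + 1) := by
  have h1 : (σ * Fin.revPerm).symm i = Fin.rev (σ.symm i) := by
    rw [Equiv.symm_apply_eq, Perm.mul_apply, Fin.revPerm_apply, Fin.rev_rev,
      Equiv.apply_symm_apply]
  rw [h1, Fin.val_rev]

theorem wl_rev (σ : Perm (Fin m)) (i : Fin m) : wl (σ * Fin.revPerm) i = (wr σ i).reverse := by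
  have h0 := (σ.symm i).isLt
  unfold wl wr
  rw [ofFn_rev', symm_rev', List.take_reverse, List.length_ofFn]
  have h1 : m - (m - ((σ.symm i).val + 1)) = (σ.symm i).val + 1 := by omega
  rw [h1]

theorem wr_rev (σ : Perm (Fin m)) (i : Fin m) : wr (σ * Fin.revPerm) i = (wl σ i).reverse := by
  have h0 := (σ.symm i).isLt
  unfold wl wr
  rw [ofFn_rev', symm_rev', List.drop_reverse, List.length_ofFn]
  have h1 : m - (m - ((σ.symm i).val + 1) + 1) = (σ.symm i).val := by omega
  rw [h1]

theorem Phi_transpose {α β : Type*} [Fintype α] [DecidableEq α] [Fintype β] [DecidableEq β]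
    (c : Perm (Fin m) → K) (ε : K) (hc : ∀ σ, c (σ * Fin.revPerm) = ε * c σ) (i : Fin m)
    (X : Fin m → Matrix α α K) (Y : Fin m → Matrix β β K) (z : Matrix α β K) :
    Phi c i (fun l => (Y l)ᵀ) (fun l => (X l)ᵀ) zᵀ = ε • (Phi c i X Y z)ᵀ := by
  unfold Phi
  rw [Matrix.transpose_sum, Finset.smul_sum,
    ← Equiv.sum_comp (Equiv.mulRight (Fin.revPerm : Perm (Fin m)))]
  refine Finset.sum_congr rfl fun σ _ => ?_
  rw [Equiv.coe_mulRight, wl_rev, wr_rev, hc, Matrix.transpose_smul, Matrix.transpose_mul,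
    Matrix.transpose_mul, tr_list', tr_list', smul_smul, Matrix.mul_assoc]

theorem Gm_transpose (h : ZMod 2) (d : ZMod 2 → K) : (Gm h d)ᵀ = Gm h (fun x => d (x + h)) := by
  ext a b
  rw [Matrix.transpose_apply, Gm_apply, Gm_apply]
  have h1 : (a = b + h) ↔ (b = a + h) := by
    constructor
    · intro h2
      rw [h2, add_assoc, CharTwo.add_self_eq_zero, add_zero]
    · intro h2
      rw [h2, add_assoc, CharTwo.add_self_eq_zero, add_zero]
  by_cases h2 : b = a + h
  · rw [if_pos (h1.2 h2), if_pos h2, h2]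
  · rw [if_neg (fun h3 => h2 (h1.1 h3)), if_neg h2]

theorem row_surj (c : Perm (Fin m) → K) (ε : K) (hε : ε ≠ 0)
    (hc : ∀ σ, c (σ * Fin.revPerm) = ε * c σ) (j : Fin m) (g : Fin m → ZMod 2)
    (D : Fin m → ZMod 2 → K) (h : ∀ a, gl c j g (fun l x => D l (x + g l)) a ≠ 0)
    (w : Matrix Unit (ZMod 2) K) :
    ∃ z : Matrix Unit (ZMod 2) K,
      Phi c j (fun _ => (0 : Matrix Unit Unit K)) (fun l => Gm (g l) (D l)) z = w := by
  obtain ⟨y, hy⟩ := col_surj c j g (fun l x => D l (x + g l)) h (ε • wᵀ)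
  refine ⟨yᵀ, ?_⟩
  have h1 := Phi_transpose c ε hc j (fun _ => (0 : Matrix Unit Unit K))
    (fun l => Gm (g l) (D l)) yᵀ
  simp only [Gm_transpose, Matrix.transpose_zero, Matrix.transpose_transpose] at h1
  rw [hy] at h1
  have h2 := congrArg (fun A => ε⁻¹ • A) h1
  simp only [smul_smul, inv_mul_cancel₀ hε, one_smul] at h2
  have h3 := congrArg Matrix.transpose h2
  rw [Matrix.transpose_transpose, Matrix.transpose_transpose] at h3
  exact h3.symm

end MLI
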