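import Pool.Agent.Work.MP_05d08f_al.RS.Hop
import Pool.Agent.Work.MP_05d08f_al.RS.Rev
import Pool.Agent.Work.MP_05d08f_al.RS.GenR

set_option autoImplicit false

/-!
# Odd: matrices in normal form are values

PROOF. Let `β_p a` be the entries `(p,0),(p,1)` and `(p,1),(p,0)` of `A`; `r p = β_p 0 / β_p 1` if these are not
zero, `r p = 1` otherwise. `rs_gen` gives `D`, `t`. Conjugating `A` by the diagonal matrix with `t p` at `(p, 0)` and
`1` elsewhere makes the pair `(t p * β_p 0, β_p 1 / t p)`, a multiple of the value of the graded letters `D_p`.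
-/

namespace MLI

open Matrix Equiv

variable {K : Type*} [Field K] {m : ℕ}

/-- The block equation of a pair of indices. -/
private theorem pair_eq (c : Perm (Fin m) → K) (j : Fin m) (g : Fin m → ZMod 2)
    (hg : ∑ l, g l = 1) (D : Fin m → ZMod 2 → K) (s : K) (C : Matrix (ZMod 2) (ZMod 2) K)
    (hC : ∀ a, C a a = 0) (hC' : ∀ a, C a (a + 1) = s * co c g a D) :
    ∃ z : Matrix (ZMod 2) (ZMod 2) K,
      Phi c j (fun l => Gm (g l) (D l)) (fun l => Gm (g l) (D l)) z = C := by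
  refine ⟨Gm (g j) (s • D j), ?_⟩
  rw [Phi_Gm, hg, show g j + 1 - g j = 1 by abel]
  ext x y
  rw [Gm_apply]
  have h2 : ∀ a b : ZMod 2, b = a + 1 ∨ b = a := by decide
  have h3 : ∀ a : ZMod 2, a ≠ a + 1 := by decide
  rcases h2 x y with h | h
  · rw [if_pos h, h, Matrix.mulVec_smul, Pi.smul_apply, smul_eq_mul, Lam_mulVec,
      Function.update_eq_self, hC']
  · rw [h, if_neg (h3 x), hC]

theorem odd_nf [Infinite K] (c : Perm (Fin m) → K) (ε : K) (hε : ε ≠ 0)
    (hc : ∀ σ, c (σ * Fin.revPerm) = ε * c σ) (i j : Fin m) (g : Fin m → ZMod 2)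
    (hg : ∑ l, g l = 1) (D0 : Fin m → ZMod 2 → K) (hdet : (Lam c i g (g i) D0 D0).det ≠ 0)
    (hj : ∀ a : ZMod 2, ∃ D : Fin m → ZMod 2 → K, gl c j g D a ≠ 0) {k : ℕ}
    (A : Matrix ((Fin k × ZMod 2) ⊕ Unit) ((Fin k × ZMod 2) ⊕ Unit) K) (hA : NF A) :
    ∃ a : Fin m → Matrix ((Fin k × ZMod 2) ⊕ Unit) ((Fin k × ZMod 2) ⊕ Unit) K, ev c a = A := by
  classical
  obtain ⟨β0, hβ0⟩ : ∃ β0 : Fin k → K, ∀ p, A (Sum.inl (p, 0)) (Sum.inl (p, 1)) = β0 p :=
    ⟨_, fun _ => rfl⟩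
  obtain ⟨β1, hβ1⟩ : ∃ β1 : Fin k → K, ∀ p, A (Sum.inl (p, 1)) (Sum.inl (p, 0)) = β1 p :=
    ⟨_, fun _ => rfl⟩
  have hβ : ∀ p, β0 p = 0 ↔ β1 p = 0 := by
    intro p
    rw [← hβ0, ← hβ1]
    exact hA.2 p
  obtain ⟨r, hrdef⟩ : ∃ r : Fin k → K, ∀ p, r p = if β0 p = 0 then 1 else β0 p / β1 p :=
    ⟨_, fun _ => rfl⟩
  have hr : ∀ p, r p ≠ 0 := by
    intro p
    rw [hrdef]
    split_ifs with h
    · exact one_ne_zero
    · exact div_ne_zero h fun h' => h ((hβ p).2 h')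
  obtain ⟨D, t, h1, h2, h3, h4⟩ := rs_gen (B := Fin k) c i j g D0 hdet hj r hr
  obtain ⟨τ, hτ0, hτ1, hτ2⟩ : ∃ τ : (Fin k × ZMod 2) ⊕ Unit → K,
      (∀ p, τ (Sum.inl (p, 0)) = t p) ∧ (∀ p, τ (Sum.inl (p, 1)) = 1) ∧ τ (Sum.inr ()) = 1 :=
    ⟨Sum.elim (fun q => if q.2 = 0 then t q.1 else 1) (fun _ => 1), by intro p; simp, by
      intro p
      rw [Sum.elim_inl]
      exact if_neg (show ¬ ((1 : ZMod 2) = 0) by decide), rfl⟩
  have hz : ∀ a : ZMod 2, a = 0 ∨ a = 1 := by decide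
  have hτ : ∀ x, τ x ≠ 0 := by
    rintro (⟨p, a⟩ | ⟨⟩)
    · rcases hz a with rfl | rfl
      · rw [hτ0]; exact (h4 p).1
      · rw [hτ1]; exact one_ne_zero
    · rw [hτ2]; exact one_ne_zero
  refine hit_of_conj c A (Matrix.diagonal fun x => (τ x)⁻¹) (Matrix.diagonal τ) ?_ ?_ ?_
  · rw [Matrix.diagonal_mul_diagonal]
    rw [show (fun x => (τ x)⁻¹ * τ x) = fun _ => (1 : K) from
      funext fun x => inv_mul_cancel₀ (hτ x)]
    exact Matrix.diagonal_one
  · rw [Matrix.diagonal_mul_diagonal]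
    rw [show (fun x => τ x * (τ x)⁻¹) = fun _ => (1 : K) from
      funext fun x => mul_inv_cancel₀ (hτ x)]
    exact Matrix.diagonal_one
  have hent : ∀ x y, (Matrix.diagonal τ * A * Matrix.diagonal fun x => (τ x)⁻¹) x y =
      τ x * A x y * (τ y)⁻¹ := by
    intro x y
    rw [Matrix.mul_diagonal, Matrix.diagonal_mul]
  refine hit_option c j (fun p l => Gm (g l) (D p l)) _ ?_ ?_ ?_ ?_
  · rw [hent, hA.1, mul_zero, zero_mul]
  · intro p q
    by_cases hpq : p = q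
    · subst hpq
      by_cases hb : β0 p = 0
      · refine ⟨0, ?_⟩
        rw [Phi_zero]
        have hb1 : β1 p = 0 := (hβ p).1 hb
        ext a b
        rw [Matrix.of_apply, hent, Matrix.zero_apply]
        rcases hz a with rfl | rfl <;> rcases hz b with rfl | rfl
        · rw [hA.1, mul_zero, zero_mul]
        · rw [hβ0, hb, mul_zero, zero_mul]
        · rw [hβ1, hb1, mul_zero, zero_mul]
        · rw [hA.1, mul_zero, zero_mul]
      · have hb1 : β1 p ≠ 0 := fun h => hb ((hβ p).2 h)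
        obtain ⟨ht, hc0, hc1, hco⟩ := h4 p
        rw [hrdef, if_neg hb] at hco
        refine pair_eq c j g hg (D p) ((t p)⁻¹ * β1 p / co c g 1 (D p)) _ ?_ ?_
        · intro a
          rw [Matrix.of_apply, hent, hA.1, mul_zero, zero_mul]
        · intro a
          rw [Matrix.of_apply, hent]
          rcases hz a with rfl | rfl
          · rw [show (0 : ZMod 2) + 1 = 1 by decide, hβ0, hτ0, hτ1, hco]
            field_simp
          · rw [show (1 : ZMod 2) + 1 = 0 by decide, hβ1, hτ0, hτ1]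
            field_simp
    · exact Phi_surj_of_Lam c j g (D p) (D q) (h3 p q hpq) _
  · intro p w
    exact col_surj c j g (D p) (h1 p) w
  · intro p w
    exact row_surj c ε hε hc j g (D p) (h2 p) w

end MLI
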