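import Pool.Agent.Work.MP_05d08f_al.Gen

set_option autoImplicit false

/-!
# Sq (size S-M): generic points with prescribed ratios up to squares

PROOF. Take polynomials `P i` (nonzero polynomial functions on `B × ZMod 2 → K`).
Step 1: by `exists_common` (Gen.lean) applied to `Option`-like family (the `P i` and the coordinates
`x (p, 1)`, `p : B`) there is `x'` with `P i x' ≠ 0` for all `i ∈ s` and `x' (p, 1) ≠ 0` for all `p`.
Step 2: consider the polynomial functions `R i : (B → K) → K`,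
`R i u = P i (fun q => if q.2 = 0 then r q.1 * x' (q.1, 1) * u q.1 else x' q)` (`IsPoly.comp`); `R i u' ≠ 0`
for `u' p = x' (p, 0) / (r p * x' (p, 1))`, because for `q.2 ≠ 0` we have `q.2 = 1` and
`r p * x' (p, 1) * u' p = x' (p, 0)`.
Step 3: let `R i` be the evaluation of `ρ i ≠ 0` in `MvPolynomial B K`. `MvPolynomial.expand 2 (ρ i) ≠ 0`
(`MvPolynomial.expand_injective`), and `eval t (expand 2 ρ) = eval (t ^ 2) ρ`. So `t ↦ R i (fun p => t p ^ 2)`
is a polynomial function that is not identically zero; `exists_common` for these and for the coordinates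
`t p` gives `t` with all `t p ≠ 0`, `R i (t ^ 2) ≠ 0`. Put `η (p, 0) = r p * x' (p, 1) * t p ^ 2`,
`η (p, 1) = x' (p, 1)`.
-/

namespace MLI

open Equiv

variable {K : Type*} [Field K]

/-- squares: a nonzero polynomial function takes a nonzero value at a point of squares -/
private theorem sq_sub {B : Type*} {R : (B → K) → K} (hR : IsPoly R) [Infinite K]
    (h : ∃ u, R u ≠ 0) : IsPoly (fun t : B → K => R fun p => t p ^ 2) ∧
      ∃ t : B → K, (R fun p => t p ^ 2) ≠ 0 := by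
  obtain ⟨ρ, hρ⟩ := hR
  obtain ⟨u, hu⟩ := h
  have h0 : ρ ≠ 0 := by
    rintro rfl
    rw [hρ, map_zero] at hu
    exact hu rfl
  have h1 : ∀ t : B → K, (R fun p => t p ^ 2) = MvPolynomial.eval t (MvPolynomial.expand 2 ρ) := by
    intro t
    rw [MvPolynomial.eval_expand, hρ]
    rfl
  refine ⟨⟨MvPolynomial.expand 2 ρ, h1⟩, ?_⟩
  by_contra hcon
  push Not at hcon
  apply (MvPolynomial.expand_ne_zero (p := 2) (by norm_num)).2 h0
  exact MvPolynomial.funext fun t => by rw [← h1, hcon t, map_zero]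

theorem exists_sq [Infinite K] {B ι : Type*} [Fintype B] [DecidableEq B] (s : Finset ι)
    (P : ι → (B × ZMod 2 → K) → K) (hP : ∀ i ∈ s, IsPoly (P i)) (h : ∀ i ∈ s, ∃ x, P i x ≠ 0)
    (r : B → K) (hr : ∀ p, r p ≠ 0) :
    ∃ (η : B × ZMod 2 → K) (t : B → K), (∀ i ∈ s, P i η ≠ 0) ∧
      ∀ p, t p ≠ 0 ∧ η (p, 0) ≠ 0 ∧ η (p, 1) ≠ 0 ∧ η (p, 0) = r p * t p ^ 2 * η (p, 1) := by
  classical
  have h01 : ∀ a : ZMod 2, a ≠ 0 → a = 1 := by decide
  -- step 1
  obtain ⟨x', hx'⟩ : ∃ x' : B × ZMod 2 → K, ∀ i ∈ s.disjSum (Finset.univ : Finset B),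
      (Sum.elim P (fun (p : B) (x : B × ZMod 2 → K) => x (p, 1)) i) x' ≠ 0 := by
    apply exists_common
    · rintro (i | p) hi
      · exact hP i (Finset.inl_mem_disjSum.1 hi)
      · exact IsPoly.coord _
    · rintro (i | p) hi
      · exact h i (Finset.inl_mem_disjSum.1 hi)
      · exact ⟨fun _ => 1, one_ne_zero⟩
  have hx1 : ∀ i ∈ s, P i x' ≠ 0 := fun i hi => hx' (Sum.inl i) (Finset.inl_mem_disjSum.2 hi)
  have hx2 : ∀ p : B, x' (p, 1) ≠ 0 := fun p =>
    hx' (Sum.inr p) (Finset.inr_mem_disjSum.2 (Finset.mem_univ p))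
  -- step 2
  set F : (B → K) → B × ZMod 2 → K := fun u q =>
    if q.2 = 0 then r q.1 * x' (q.1, 1) * u q.1 else x' q with hF
  have hFp : ∀ q, IsPoly (fun u : B → K => F u q) := by
    intro q
    by_cases hq : q.2 = 0
    · simp only [hF, if_pos hq]
      exact (IsPoly.const _).mul (IsPoly.coord _)
    · simp only [hF, if_neg hq]
      exact IsPoly.const _
  have hR : ∀ i ∈ s, IsPoly (fun u : B → K => P i (F u)) := fun i hi => (hP i hi).comp hFp
  have hRn : ∀ i ∈ s, ∃ u : B → K, P i (F u) ≠ 0 := by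
    intro i hi
    refine ⟨fun p => x' (p, 0) / (r p * x' (p, 1)), ?_⟩
    have h1 : F (fun p => x' (p, 0) / (r p * x' (p, 1))) = x' := by
      funext ⟨p, a⟩
      by_cases ha : a = 0
      · subst ha
        simp only [hF, if_true]
        field_simp [hr p, hx2 p]
      · simp only [hF, if_neg ha]
    rw [h1]
    exact hx1 i hi
  -- step 3
  obtain ⟨t, ht⟩ : ∃ t : B → K, ∀ i ∈ s.disjSum (Finset.univ : Finset B),
      (Sum.elim (fun i (t : B → K) => P i (F fun p => t p ^ 2))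
        (fun (p : B) (t : B → K) => t p) i) t ≠ 0 := by
    apply exists_common
    · rintro (i | p) hi
      · exact (sq_sub (hR i (Finset.inl_mem_disjSum.1 hi)) (hRn i (Finset.inl_mem_disjSum.1 hi))).1
      · exact IsPoly.coord _
    · rintro (i | p) hi
      · exact (sq_sub (hR i (Finset.inl_mem_disjSum.1 hi)) (hRn i (Finset.inl_mem_disjSum.1 hi))).2
      · exact ⟨fun _ => 1, one_ne_zero⟩
  have ht1 : ∀ i ∈ s, P i (F fun p => t p ^ 2) ≠ 0 := fun i hi =>
    ht (Sum.inl i) (Finset.inl_mem_disjSum.2 hi)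
  have ht2 : ∀ p : B, t p ≠ 0 := fun p =>
    ht (Sum.inr p) (Finset.inr_mem_disjSum.2 (Finset.mem_univ p))
  refine ⟨F fun p => t p ^ 2, t, ht1, fun p => ?_⟩
  have e0 : F (fun p => t p ^ 2) (p, 0) = r p * x' (p, 1) * t p ^ 2 := by
    simp only [hF, if_true]
  have e1 : F (fun p => t p ^ 2) (p, 1) = x' (p, 1) := by
    have : (1 : ZMod 2) ≠ 0 := by decide
    simp only [hF, if_neg this]
  refine ⟨ht2 p, ?_, ?_, ?_⟩
  · rw [e0]
    exact mul_ne_zero (mul_ne_zero (hr p) (hx2 p)) (pow_ne_zero 2 (ht2 p))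
  · rw [e1]
    exact hx2 p
  · rw [e0, e1]
    ring

end MLI
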