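import Pool.Agent.Work.MP_05d08f_al.TwoCore
import Pool.Agent.Work.MP_05d08f_al.RS.Sq

set_option autoImplicit false

/-!
# Sel (size M-L): generic families of graded letters with prescribed ratios of the values

Coordinates: `x (p, l, a)` is the entry `a` of the letter `l` in the block `p`. For `x` put
`D_p l a = x (p, l, a)` and `L_p(x) = Lam c i g (g i) D_p D_p` (it does not involve the letter `i`).

PROOF. The polynomial functions `det L_p(x)` (`p : B`) are not identically zero (take `D_p = D0`), so by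
`exists_common` (family: the `P k`, `k ∈ s`, and the `det L_p`) there is `x⋆` with `P k x⋆ ≠ 0` and
`det L_p(x⋆) ≠ 0` for all `p`. For `η : B × ZMod 2 → K` define `x[η]` by
`x[η] (p, l, a) = x⋆ (p, l, a)` if `l ≠ i`, and `x[η] (p, i, a) = ((L_p(x⋆))⁻¹ *ᵥ fun b => η (p, b)) a`. Then
* `co c g a (D_p of x[η]) = (L_p(x⋆) *ᵥ (L_p(x⋆))⁻¹ *ᵥ η (p, ·)) a = η (p, a)`: by `Lam_mulVec` (TwoCore.lean),
  since the `D_p` of `x[η]` is `Function.update (D_p of x⋆) i (...)`;
* the entries of `x[η]` are polynomial (affine) functions of `η`, so `η ↦ P k (x[η])` is polynomial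
  (`IsPoly.comp`);
* for `η⋆ (p, a) = co c g a (D_p of x⋆)` we have `x[η⋆] = x⋆` (again `Lam_mulVec` with
  `ζ = D_p of x⋆ at i`, `Function.update_eq_self`, and `L⁻¹ *ᵥ (L *ᵥ ζ) = ζ`), so `P k (x[η⋆]) ≠ 0`.
Apply `exists_sq` (Sq.lean) to the functions `η ↦ P k (x[η])` and take `x = x[η]`.
-/

namespace MLI

open Matrix Equiv

variable {K : Type*} [Field K] {m : ℕ}

theorem exists_sel [Infinite K] {B ι : Type*} [Fintype B] [DecidableEq B] (c : Perm (Fin m) → K)
    (i : Fin m) (g : Fin m → ZMod 2) (D0 : Fin m → ZMod 2 → K)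
    (hdet : (Lam c i g (g i) D0 D0).det ≠ 0) (s : Finset ι)
    (P : ι → (B × Fin m × ZMod 2 → K) → K) (hP : ∀ k ∈ s, IsPoly (P k))
    (h : ∀ k ∈ s, ∃ x, P k x ≠ 0) (r : B → K) (hr : ∀ p, r p ≠ 0) :
    ∃ (x : B × Fin m × ZMod 2 → K) (t : B → K), (∀ k ∈ s, P k x ≠ 0) ∧
      ∀ p, t p ≠ 0 ∧ co c g 0 (fun l a => x (p, l, a)) ≠ 0 ∧ co c g 1 (fun l a => x (p, l, a)) ≠ 0 ∧
        co c g 0 (fun l a => x (p, l, a)) = r p * t p ^ 2 * co c g 1 (fun l a => x (p, l, a)) := by
  classical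
  let L : (B × Fin m × ZMod 2 → K) → B → Matrix (ZMod 2) (ZMod 2) K :=
    fun x p => Lam c i g (g i) (fun l a => x (p, l, a)) (fun l a => x (p, l, a))
  obtain ⟨xs, hxs⟩ : ∃ xs : B × Fin m × ZMod 2 → K, ∀ k ∈ s.disjSum (Finset.univ : Finset B),
      (Sum.elim P (fun (p : B) (x : B × Fin m × ZMod 2 → K) => (L x p).det) k) xs ≠ 0 := by
    apply exists_common
    · rintro (k | p) hk
      · exact hP k (Finset.inl_mem_disjSum.1 hk)
      · exact IsPoly.Lam_det c i g (g i)
          (D := fun (x : B × Fin m × ZMod 2 → K) l a => x (p, l, a))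
          (D' := fun (x : B × Fin m × ZMod 2 → K) l a => x (p, l, a))
          (fun j a => IsPoly.coord _) (fun j a => IsPoly.coord _)
    · rintro (k | p) hk
      · exact h k (Finset.inl_mem_disjSum.1 hk)
      · exact ⟨fun q => D0 q.2.1 q.2.2, hdet⟩
  have hPx : ∀ k ∈ s, P k xs ≠ 0 := fun k hk => hxs (Sum.inl k) (Finset.inl_mem_disjSum.2 hk)
  have hLx : ∀ p, (L xs p).det ≠ 0 := fun p =>
    hxs (Sum.inr p) (Finset.inr_mem_disjSum.2 (Finset.mem_univ p))
  let X : (B × ZMod 2 → K) → (B × Fin m × ZMod 2 → K) := fun η q =>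
    if q.2.1 = i then ((L xs q.1)⁻¹ *ᵥ fun b => η (q.1, b)) q.2.2 else xs q
  have hXpoly : ∀ q, IsPoly (fun η => X η q) := by
    intro q
    refine IsPoly.ite _ ?_ (IsPoly.const _)
    simp only [Matrix.mulVec, dotProduct]
    exact IsPoly.sum _ fun b _ => (IsPoly.const _).mul (IsPoly.coord _)
  have hupd : ∀ (η : B × ZMod 2 → K) (p : B), (fun l a => X η (p, l, a)) =
      Function.update (fun l a => xs (p, l, a)) i ((L xs p)⁻¹ *ᵥ fun b => η (p, b)) := by
    intro η p
    funext l a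
    by_cases hl : l = i
    · rw [hl, Function.update_self]
      exact if_pos rfl
    · rw [Function.update_of_ne hl]
      exact if_neg hl
  have hco : ∀ (η : B × ZMod 2 → K) (p : B) (a : ZMod 2),
      co c g a (fun l a => X η (p, l, a)) = η (p, a) := by
    intro η p a
    rw [hupd, ← Lam_mulVec]
    change (L xs p *ᵥ ((L xs p)⁻¹ *ᵥ fun b => η (p, b))) a = _
    rw [Matrix.mulVec_mulVec, Matrix.mul_nonsing_inv _ (isUnit_iff_ne_zero.2 (hLx p)),
      Matrix.one_mulVec]
  have hback : X (fun q => co c g q.2 (fun l a => xs (q.1, l, a))) = xs := by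
    funext q
    obtain ⟨p, l, a⟩ := q
    by_cases hl : l = i
    · have h1 : (fun b => co c g b (fun l a => xs (p, l, a))) =
          L xs p *ᵥ (fun a => xs (p, i, a)) := by
        funext b
        have h2 := Lam_mulVec c i g (fun l a => xs (p, l, a)) (fun a => xs (p, i, a)) b
        rw [Function.update_eq_self i (fun l a => xs (p, l, a))] at h2
        exact h2.symm
      have h3 : X (fun q => co c g q.2 (fun l a => xs (q.1, l, a))) (p, l, a) =
          ((L xs p)⁻¹ *ᵥ fun b => co c g b (fun l a => xs (p, l, a))) a := if_pos hl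
      rw [h3, h1, Matrix.mulVec_mulVec, Matrix.nonsing_inv_mul _ (isUnit_iff_ne_zero.2 (hLx p)),
        Matrix.one_mulVec, hl]
    · exact if_neg hl
  obtain ⟨η, t, hη, ht⟩ := exists_sq s (fun k η => P k (X η))
    (fun k hk => (hP k hk).comp hXpoly)
    (fun k hk => ⟨fun q => co c g q.2 (fun l a => xs (q.1, l, a)),
      (congrArg (P k) hback).trans_ne (hPx k hk)⟩) r hr
  refine ⟨X η, t, hη, fun p => ?_⟩
  rw [hco, hco]
  exact ht p

end MLI
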